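import Pool.Agent.Lib.MP_6a3a89_al.Module

set_option autoImplicit false

/-!
# The actions of the Lie algebra and of `K` on Laurent polynomials
-/

namespace Pool.Agent.Lib.MP_6a3a89_al

open Matrix ComplexConjugate

/-- The vector field on the first circle attached to `X`. -/
noncomputable def u1 (X : M2) : VV :=
  (-(cQ X)) • bV (-1, 0) + (-(2 * cP X)) • (1 : VV) + conj (cQ X) • bV (1, 0)

/-- The vector field on the second circle attached to `X`. -/
noncomputable def u2 (X : M2) : VV :=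
  (-(cQ X)) • bV (0, -1) + (-(2 * cP X)) • (1 : VV) + conj (cQ X) • bV (0, 1)

/-- The action of the Lie algebra. -/
noncomputable def dpi (X : LG) : Module.End ℂ VV where
  toFun v := u1 X.1 * d1 v + u2 X.2 * d2 v
  map_add' v w := by rw [map_add, map_add]; ring
  map_smul' r v := by
    rw [Derivation.map_smul, Derivation.map_smul, RingHom.id_apply, smul_add, mul_smul_comm,
      mul_smul_comm]

theorem dpi_apply (X : LG) (v : VV) : dpi X v = u1 X.1 * d1 v + u2 X.2 * d2 v := rfl

theorem u1_add (X Y : M2) : u1 (X + Y) = u1 X + u1 Y := by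
  simp only [u1, cP_add, cQ_add, map_add]; module

theorem u2_add (X Y : M2) : u2 (X + Y) = u2 X + u2 Y := by
  simp only [u2, cP_add, cQ_add, map_add]; module

theorem u1_smul (r : ℝ) (X : M2) : u1 (r • X) = (r : ℂ) • u1 X := by
  simp only [u1, cP_smul, cQ_smul, map_mul, Complex.conj_ofReal]; module

theorem u2_smul (r : ℝ) (X : M2) : u2 (r • X) = (r : ℂ) • u2 X := by
  simp only [u2, cP_smul, cQ_smul, map_mul, Complex.conj_ofReal]; module

theorem d1_one : d1 (1 : VV) = 0 := Derivation.map_one_eq_zero _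
theorem d2_one : d2 (1 : VV) = 0 := Derivation.map_one_eq_zero _

theorem d1_u1 (X : M2) : d1 (u1 X) = cQ X • bV (-1, 0) + conj (cQ X) • bV (1, 0) := by
  rw [u1, map_add, map_add, Derivation.map_smul, Derivation.map_smul, Derivation.map_smul, d1_one,
    d1_bV, d1_bV]
  push_cast
  module

theorem d2_u2 (X : M2) : d2 (u2 X) = cQ X • bV (0, -1) + conj (cQ X) • bV (0, 1) := by
  rw [u2, map_add, map_add, Derivation.map_smul, Derivation.map_smul, Derivation.map_smul, d2_one,
    d2_bV, d2_bV]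
  push_cast
  module

theorem d1_u2 (X : M2) : d1 (u2 X) = 0 := by
  rw [u2, map_add, map_add, Derivation.map_smul, Derivation.map_smul, Derivation.map_smul, d1_one,
    d1_bV, d1_bV]
  push_cast
  module

theorem d2_u1 (X : M2) : d2 (u1 X) = 0 := by
  rw [u1, map_add, map_add, Derivation.map_smul, Derivation.map_smul, Derivation.map_smul, d2_one,
    d2_bV, d2_bV]
  push_cast
  module

theorem z1_inv : bV (-1, 0) * bV (1, 0) = 1 := by rw [bV_mul, ← bV_zero]; rfl
theorem z2_inv : bV (0, -1) * bV (0, 1) = 1 := by rw [bV_mul, ← bV_zero]; rfl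

theorem cP_lie (X Y : sl) : cP ((⁅X, Y⁆ : sl) : M2) =
    cQ (X : M2) * conj (cQ (Y : M2)) - cQ (Y : M2) * conj (cQ (X : M2)) := by
  rw [LieAlgebra.SpecialLinear.sl_bracket, cP_sub, cP_mul, cP_mul]; ring

theorem cQ_lie (X Y : sl) : cQ ((⁅X, Y⁆ : sl) : M2) =
    2 * (cP (X : M2) * cQ (Y : M2) - cP (Y : M2) * cQ (X : M2)) := by
  rw [LieAlgebra.SpecialLinear.sl_bracket, cQ_sub, cQ_mul, cQ_mul, cP_sl, cP_sl]; ring

theorem u1_lie (X Y : sl) : u1 ((⁅X, Y⁆ : sl) : M2) =
    u1 X * d1 (u1 Y) - u1 Y * d1 (u1 X) := by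
  rw [d1_u1, d1_u1, u1, cP_lie, cQ_lie, u1, u1]
  simp only [map_mul, map_sub, cP_sl, map_ofNat, Algebra.smul_def, map_neg]
  linear_combination (2 * ((algebraMap ℂ VV) (conj (cQ (X : M2))) * (algebraMap ℂ VV) (cQ (Y : M2))
    - (algebraMap ℂ VV) (cQ (X : M2)) * (algebraMap ℂ VV) (conj (cQ (Y : M2))))) * (-z1_inv)

theorem u2_lie (X Y : sl) : u2 ((⁅X, Y⁆ : sl) : M2) =
    u2 X * d2 (u2 Y) - u2 Y * d2 (u2 X) := by
  rw [d2_u2, d2_u2, u2, cP_lie, cQ_lie, u2, u2]
  simp only [map_mul, map_sub, cP_sl, map_ofNat, Algebra.smul_def, map_neg]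
  linear_combination (2 * ((algebraMap ℂ VV) (conj (cQ (X : M2))) * (algebraMap ℂ VV) (cQ (Y : M2))
    - (algebraMap ℂ VV) (cQ (X : M2)) * (algebraMap ℂ VV) (conj (cQ (Y : M2))))) * (-z2_inv)

theorem dpi_lie (X Y : LG) : dpi ⁅X, Y⁆ = dpi X * dpi Y - dpi Y * dpi X := by
  apply LinearMap.ext
  intro v
  rw [LinearMap.sub_apply, Module.End.mul_apply, Module.End.mul_apply, dpi_apply, dpi_apply,
    dpi_apply, dpi_apply, dpi_apply]
  change u1 ((⁅X.1, Y.1⁆ : sl) : M2) * d1 v + u2 ((⁅X.2, Y.2⁆ : sl) : M2) * d2 v = _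
  rw [u1_lie, u2_lie]
  simp only [map_add, Derivation.leibniz, smul_eq_mul, d1_u2, d2_u1, mul_zero, d1_d2]
  ring

/-! ### Elements of `SO(2)` -/

theorem SO2_spec {g : SL} (hg : g ∈ SO2) : cQ (g : M2) = 0 ∧
    cP (g : M2) * conj (cP (g : M2)) = 1 := by
  have h1 : (g : M2) * (g : M2)ᵀ = 1 := hg
  have h2 : Matrix.det (g : M2) = 1 := g.2
  have h00 := congrFun (congrFun h1 0) 0
  have h11 := congrFun (congrFun h1 1) 1
  rw [Matrix.mul_apply, Fin.sum_univ_two] at h00 h11
  simp only [Matrix.transpose_apply, Matrix.one_apply_eq] at h00 h11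
  rw [Matrix.det_fin_two] at h2
  have hs : ((g : M2) 0 0 - (g : M2) 1 1) ^ 2 + ((g : M2) 1 0 + (g : M2) 0 1) ^ 2 = 0 := by
    nlinarith
  have hQ : cQ (g : M2) = 0 := by
    have a1 : (g : M2) 0 0 - (g : M2) 1 1 = 0 := by
      apply pow_eq_zero_iff (two_ne_zero) |>.1
      nlinarith [sq_nonneg ((g : M2) 0 0 - (g : M2) 1 1),
        sq_nonneg ((g : M2) 1 0 + (g : M2) 0 1)]
    have a2 : (g : M2) 1 0 + (g : M2) 0 1 = 0 := by
      apply pow_eq_zero_iff (two_ne_zero) |>.1
      nlinarith [sq_nonneg ((g : M2) 0 0 - (g : M2) 1 1),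
        sq_nonneg ((g : M2) 1 0 + (g : M2) 0 1)]
    apply Complex.ext
    · simp [cQ, a1]
    · simp [cQ, a2]
  refine ⟨hQ, ?_⟩
  have := normSq_det (g : M2)
  rw [hQ, zero_mul, sub_zero] at this
  rw [this, show Matrix.det (g : M2) = 1 from g.2, Complex.ofReal_one]

theorem cP_ne_zero {g : SL} (hg : g ∈ SO2) : conj (cP (g : M2)) ≠ 0 := by
  intro h
  have := (SO2_spec hg).2
  rw [h, mul_zero] at this
  exact zero_ne_one this

/-- The character of `K` on the monomial `bV a`. -/
noncomputable def charK (k : GG) (a : ℤ × ℤ) : ℂ :=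
  conj (cP (k.1 : M2)) ^ (2 * a.1) * conj (cP (k.2 : M2)) ^ (2 * a.2)

theorem cP_one : cP (1 : M2) = 1 := by apply Complex.ext <;> simp [cP]
theorem cQ_one : cQ (1 : M2) = 0 := by apply Complex.ext <;> simp [cQ]

theorem charK_one (a : ℤ × ℤ) : charK 1 a = 1 := by
  rw [charK]
  change conj (cP (1 : M2)) ^ (2 * a.1) * conj (cP (1 : M2)) ^ (2 * a.2) = 1
  rw [cP_one, map_one, _root_.one_zpow, _root_.one_zpow, one_mul]

theorem charK_mul (k l : KK) (a : ℤ × ℤ) : charK ((k : GG) * (l : GG)) a =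
    charK k a * charK l a := by
  have e1 : cP ((((k : GG) * (l : GG)).1 : SL) : M2) = cP ((k : GG).1 : M2) * cP ((l : GG).1 : M2)
      := by
    change cP ((((k : GG).1 * (l : GG).1 : SL)) : M2) = _
    rw [coeMul, cP_mul, (SO2_spec k.2.1).1, zero_mul, add_zero]
  have e2 : cP ((((k : GG) * (l : GG)).2 : SL) : M2) = cP ((k : GG).2 : M2) * cP ((l : GG).2 : M2)
      := by
    change cP ((((k : GG).2 * (l : GG).2 : SL)) : M2) = _
    rw [coeMul, cP_mul, (SO2_spec k.2.2).1, zero_mul, add_zero]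
  rw [charK, charK, charK, e1, e2, map_mul, map_mul, mul_zpow, mul_zpow]
  ring

theorem charK_add (k : KK) (a b : ℤ × ℤ) : charK k (a + b) = charK k a * charK k b := by
  rw [charK, charK, charK]
  have h1 := cP_ne_zero k.2.1
  have h2 := cP_ne_zero k.2.2
  rw [Prod.fst_add, Prod.snd_add, mul_add, mul_add, zpow_add₀ h1, zpow_add₀ h2]
  ring

theorem charK_ne_zero (k : KK) (a : ℤ × ℤ) : charK k a ≠ 0 :=
  mul_ne_zero (zpow_ne_zero _ (cP_ne_zero k.2.1)) (zpow_ne_zero _ (cP_ne_zero k.2.2))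

theorem VV_lin_ext {f g : Module.End ℂ VV} (h : ∀ a, f (bV a) = g (bV a)) : f = g :=
  bV.ext h

/-- The action of `K`. -/
noncomputable def kap : KK →* Module.End ℂ VV where
  toFun k := wt (charK k)
  map_one' := by
    apply VV_lin_ext
    intro a
    rw [wt_bV]
    change charK 1 a • bV a = bV a
    rw [charK_one, one_smul]
  map_mul' k l := by
    apply VV_lin_ext
    intro a
    rw [Module.End.mul_apply, wt_bV, wt_bV, map_smul, wt_bV]
    change charK ((k : GG) * (l : GG)) a • bV a = _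
    rw [charK_mul, smul_smul, mul_comm]

theorem kap_bV (k : KK) (a : ℤ × ℤ) : kap k (bV a) = charK k a • bV a := wt_bV _ a

theorem kap_mul (k : KK) (u v : VV) : kap k (u * v) = kap k u * kap k v := by
  induction u using VV_induction with
  | h0 => simp
  | hadd u u' hu hu' => rw [add_mul, map_add, hu, hu', map_add, add_mul]
  | hb a r =>
    induction v using VV_induction with
    | h0 => simp
    | hadd v v' hv hv' => rw [mul_add, map_add, hv, hv', map_add, mul_add]
    | hb b s =>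
      rw [smul_mul_smul_comm, bV_mul, map_smul, map_smul, map_smul, kap_bV, kap_bV, kap_bV,
        charK_add]
      simp only [smul_smul, smul_mul_smul_comm, bV_mul]
      congr 1
      ring

theorem kap_d1 (k : KK) (v : VV) : kap k (d1 v) = d1 (kap k v) := by
  induction v using VV_induction with
  | h0 => simp
  | hadd u w hu hw => rw [map_add, map_add, map_add, map_add, hu, hw]
  | hb a r =>
    rw [Derivation.map_smul, d1_bV, map_smul, map_smul, kap_bV, map_smul, kap_bV,
      Derivation.map_smul, Derivation.map_smul, d1_bV, smul_comm (charK k a)]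

theorem kap_d2 (k : KK) (v : VV) : kap k (d2 v) = d2 (kap k v) := by
  induction v using VV_induction with
  | h0 => simp
  | hadd u w hu hw => rw [map_add, map_add, map_add, map_add, hu, hw]
  | hb a r =>
    rw [Derivation.map_smul, d2_bV, map_smul, map_smul, kap_bV, map_smul, kap_bV,
      Derivation.map_smul, Derivation.map_smul, d2_bV, smul_comm (charK k a)]

theorem charK_10 (k : GG) : charK k (1, 0) = conj (cP (k.1 : M2)) ^ 2 := by
  rw [charK]; simp
theorem charK_01 (k : GG) : charK k (0, 1) = conj (cP (k.2 : M2)) ^ 2 := by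
  rw [charK]; simp

end Pool.Agent.Lib.MP_6a3a89_al
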