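import Pool.Agent.Lib.MP_6a3a89_al.TestFun

set_option autoImplicit false

/-!
# Bounds for the test functions
-/

namespace Pool.Agent.Lib.MP_6a3a89_al

open Matrix ComplexConjugate Polynomial Finset

/-- `∑ q^(k+1)/(k+1)`. -/
noncomputable def r0 (N : ℕ) (q : ℝ) : ℝ := ∑ k ∈ range N, q ^ (k + 1) / ((k : ℝ) + 1)
/-- `∑ q^k`. -/
noncomputable def r1 (N : ℕ) (q : ℝ) : ℝ := ∑ k ∈ range N, q ^ k
/-- `∑ k q^(k-1)`. -/
noncomputable def r2 (N : ℕ) (q : ℝ) : ℝ := ∑ k ∈ range N, (k : ℝ) * q ^ (k - 1)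

theorem r1_eq (N : ℕ) (q : ℝ) : (1 - q) * r1 N q = 1 - q ^ N := by
  rw [r1]
  exact mul_neg_geom_sum q N

theorem r0_nonneg (N : ℕ) {q : ℝ} (h0 : 0 ≤ q) : 0 ≤ r0 N q :=
  sum_nonneg fun k _ => by positivity
theorem r1_nonneg (N : ℕ) {q : ℝ} (h0 : 0 ≤ q) : 0 ≤ r1 N q :=
  sum_nonneg fun k _ => by positivity
theorem r2_nonneg (N : ℕ) {q : ℝ} (h0 : 0 ≤ q) : 0 ≤ r2 N q :=
  sum_nonneg fun k _ => by positivity

theorem r1_le (N : ℕ) {q : ℝ} (h0 : 0 ≤ q) : (1 - q) * r1 N q ≤ 1 := by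
  rw [r1_eq]
  have : 0 ≤ q ^ N := by positivity
  linarith

theorem r0_le_r1 (N : ℕ) {q : ℝ} (h0 : 0 ≤ q) (h1 : q ≤ 1) : r0 N q ≤ r1 N q := by
  refine sum_le_sum fun k _ => ?_
  rw [div_le_iff₀ (by positivity), pow_succ]
  have hk : (0 : ℝ) ≤ (k : ℝ) := Nat.cast_nonneg k
  have hq : 0 ≤ q ^ k := by positivity
  nlinarith [mul_nonneg hq hk]

theorem r0_le (N : ℕ) {q : ℝ} (h0 : 0 ≤ q) (h1 : q ≤ 1) : (1 - q) * r0 N q ≤ 1 :=
  (mul_le_mul_of_nonneg_left (r0_le_r1 N h0 h1) (by linarith)).trans (r1_le N h0)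

theorem r2_eq (N : ℕ) (q : ℝ) :
    (1 - q) ^ 2 * r2 (N + 1) q = 1 - ((N : ℝ) + 1) * q ^ N + (N : ℝ) * q ^ (N + 1) := by
  induction N with
  | zero => simp [r2]
  | succ N ih =>
    rw [r2, sum_range_succ, ← r2, mul_add, ih]
    rw [Nat.add_sub_cancel]
    push_cast
    ring

theorem r2_le (N : ℕ) {q : ℝ} (h0 : 0 ≤ q) (h1 : q ≤ 1) : (1 - q) ^ 2 * r2 N q ≤ 1 := by
  rcases N with _ | N
  · simp [r2]
  · rw [r2_eq, pow_succ]
    have hq : 0 ≤ q ^ N := by positivity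
    have hN : (0 : ℝ) ≤ (N : ℝ) := Nat.cast_nonneg N
    have h2 : (N : ℝ) * (q ^ N * q) ≤ ((N : ℝ) + 1) * q ^ N := by
      nlinarith [mul_nonneg hN hq, mul_nonneg (mul_nonneg hN hq) (sub_nonneg.2 h1)]
    linarith

section Real

set_option linter.unusedSectionVars false

variable {c d : ℝ} (hc : -1 ≤ c) (hc' : c ≤ 1) (hd : -1 ≤ d) (hd' : d ≤ 1) (N : ℕ)

include hc hc' hd hd'

theorem q_nonneg : 0 ≤ (2 + c + d) / 4 := by linarith
theorem q_le_one : (2 + c + d) / 4 ≤ 1 := by linarith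

theorem h_bound : |c - d| ≤ 4 * (1 - (2 + c + d) / 4) := by
  rw [abs_le]; constructor <;> linarith

theorem bound0 : |(c - d) * r0 N ((2 + c + d) / 4)| ≤ 4 := by
  have hq0 := q_nonneg hc hc' hd hd'
  have hq1 := q_le_one hc hc' hd hd'
  have hh := h_bound hc hc' hd hd'
  set q := (2 + c + d) / 4
  have h0 := r0_nonneg N hq0
  rw [abs_mul, abs_of_nonneg h0]
  calc |c - d| * r0 N q ≤ 4 * (1 - q) * r0 N q := mul_le_mul_of_nonneg_right hh h0
    _ = 4 * ((1 - q) * r0 N q) := by ring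
    _ ≤ 4 := by linarith [r0_le N hq0 hq1]

theorem bound1 : |(c - d) * (3 / 4 * (c + d) * r1 N ((2 + c + d) / 4))| ≤ 6 := by
  have hq0 := q_nonneg hc hc' hd hd'
  have hq1 := q_le_one hc hc' hd hd'
  have hh := h_bound hc hc' hd hd'
  set q := (2 + c + d) / 4
  have h0 := r1_nonneg N hq0
  have h2 : |c + d| ≤ 2 := by rw [abs_le]; constructor <;> linarith
  rw [abs_mul, abs_mul, abs_mul, abs_of_nonneg h0, abs_of_pos (by norm_num : (0 : ℝ) < 3 / 4)]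
  calc |c - d| * (3 / 4 * |c + d| * r1 N q) ≤ 4 * (1 - q) * (3 / 4 * 2 * r1 N q) := by
        gcongr
    _ = 6 * ((1 - q) * r1 N q) := by ring
    _ ≤ 6 := by linarith [r1_le N hq0]

theorem bound2 : |(c - d) * ((c ^ 2 + d ^ 2 - 2) / 16 * r2 N ((2 + c + d) / 4))| ≤ 2 := by
  have hq0 := q_nonneg hc hc' hd hd'
  have hq1 := q_le_one hc hc' hd hd'
  have hh := h_bound hc hc' hd hd'
  have h3 : |(c ^ 2 + d ^ 2 - 2) / 16| ≤ (1 - (2 + c + d) / 4) / 2 := by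
    rw [abs_le]; constructor <;> nlinarith
  set q := (2 + c + d) / 4
  have h0 := r2_nonneg N hq0
  rw [abs_mul, abs_mul, abs_of_nonneg h0]
  calc |c - d| * (|(c ^ 2 + d ^ 2 - 2) / 16| * r2 N q) ≤
        4 * (1 - q) * ((1 - q) / 2 * r2 N q) := by
        gcongr
    _ = 2 * ((1 - q) ^ 2 * r2 N q) := by ring
    _ ≤ 2 := by linarith [r2_le N hq0 hq1]

theorem bound_all {a : ℝ} (ha : 0 ≤ a) :
    |(c - d) * r0 N ((2 + c + d) / 4) + a * ((c - d) * (r0 N ((2 + c + d) / 4) +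
      3 / 4 * (c + d) * r1 N ((2 + c + d) / 4) +
      (c ^ 2 + d ^ 2 - 2) / 16 * r2 N ((2 + c + d) / 4)))| ≤ 4 + 12 * a := by
  have b0 := bound0 hc hc' hd hd' N
  have b1 := bound1 hc hc' hd hd' N
  have b2 := bound2 hc hc' hd hd' N
  set q := (2 + c + d) / 4
  have e : (c - d) * (r0 N q + 3 / 4 * (c + d) * r1 N q + (c ^ 2 + d ^ 2 - 2) / 16 * r2 N q) =
      (c - d) * r0 N q + (c - d) * (3 / 4 * (c + d) * r1 N q) +
      (c - d) * ((c ^ 2 + d ^ 2 - 2) / 16 * r2 N q) := by ring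
  have h1 : |(c - d) * (r0 N q + 3 / 4 * (c + d) * r1 N q +
      (c ^ 2 + d ^ 2 - 2) / 16 * r2 N q)| ≤ 12 := by
    rw [e]
    refine (abs_add_le _ _).trans ?_
    have := abs_add_le ((c - d) * r0 N q) ((c - d) * (3 / 4 * (c + d) * r1 N q))
    linarith
  refine (abs_add_le _ _).trans ?_
  rw [abs_mul a, abs_of_nonneg ha]
  have := mul_le_mul_of_nonneg_left h1 ha
  linarith

end Real

/-- The truncated logarithm. -/
noncomputable def PN (N : ℕ) : ℂ[X] := ∑ k ∈ range N, C (1 / ((k : ℂ) + 1)) * X ^ (k + 1)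

theorem derivative_PN (N : ℕ) : derivative (PN N) = ∑ k ∈ range N, X ^ k := by
  rw [PN, derivative_sum]
  refine sum_congr rfl fun k _ => ?_
  rw [derivative_C_mul_X_pow, Nat.add_sub_cancel]
  have : (1 / ((k : ℂ) + 1)) * ((k + 1 : ℕ) : ℂ) = 1 := by
    push_cast
    exact one_div_mul_cancel (by exact_mod_cast Nat.succ_ne_zero k)
  rw [this, C_1, one_mul]

theorem derivative_derivative_PN (N : ℕ) :
    derivative (derivative (PN N)) = ∑ k ∈ range N, C (k : ℂ) * X ^ (k - 1) := by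
  rw [derivative_PN, derivative_sum]
  refine sum_congr rfl fun k _ => ?_
  rw [derivative_X_pow]

theorem aeval_PN (N : ℕ) (q : ℝ) : aeval (q : ℂ) (PN N) = ((r0 N q : ℝ) : ℂ) := by
  rw [PN, map_sum, r0, Complex.ofReal_sum]
  refine sum_congr rfl fun k _ => ?_
  rw [map_mul, aeval_C, map_pow, aeval_X, Algebra.algebraMap_self, RingHom.id_apply]
  push_cast
  ring

theorem aeval_PN' (N : ℕ) (q : ℝ) : aeval (q : ℂ) (derivative (PN N)) = ((r1 N q : ℝ) : ℂ) := by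
  rw [derivative_PN, map_sum, r1, Complex.ofReal_sum]
  refine sum_congr rfl fun k _ => ?_
  rw [map_pow, aeval_X]
  push_cast
  rfl

theorem aeval_PN'' (N : ℕ) (q : ℝ) :
    aeval (q : ℂ) (derivative (derivative (PN N))) = ((r2 N q : ℝ) : ℂ) := by
  rw [derivative_derivative_PN, map_sum, r2, Complex.ofReal_sum]
  refine sum_congr rfl fun k _ => ?_
  rw [map_mul, aeval_C, map_pow, aeval_X, Algebra.algebraMap_self, RingHom.id_apply]
  push_cast
  rfl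

/-- Evaluation of a Laurent polynomial at a point of the torus. -/
noncomputable def ev (x : TT) : VV →ₐ[ℂ] ℂ where
  toFun v := iota v x
  map_one' := by rw [map_one]; rfl
  map_mul' u v := by rw [map_mul]; rfl
  map_zero' := by rw [map_zero]; rfl
  map_add' u v := by rw [map_add]; rfl
  commutes' r := by
    rw [Algebra.algebraMap_eq_smul_one, map_smul, map_one, ContinuousMap.smul_apply]
    simp

theorem ev_apply (x : TT) (v : VV) : ev x v = iota v x := rfl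

theorem ev_cc (x : TT) : ev x cc = (((x.1 : ℂ).re : ℝ) : ℂ) := by
  have h1 : ev x (bV (1, 0)) = (x.1 : ℂ) := by rw [ev_apply, iota_z1]; rfl
  have h2 : ev x (bV (-1, 0)) = conj (x.1 : ℂ) := by
    rw [ev_apply, show ((-1, 0) : ℤ × ℤ) = -(1, 0) from rfl, ← star_iota_bV,
      ContinuousMap.star_apply, iota_z1]
    rfl
  rw [cc, map_smul, map_add, h1, h2, Complex.add_conj, smul_eq_mul]
  push_cast
  ring

theorem ev_dd (x : TT) : ev x dd = (((x.2 : ℂ).re : ℝ) : ℂ) := by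
  have h1 : ev x (bV (0, 1)) = (x.2 : ℂ) := by rw [ev_apply, iota_z2]; rfl
  have h2 : ev x (bV (0, -1)) = conj (x.2 : ℂ) := by
    rw [ev_apply, show ((0, -1) : ℤ × ℤ) = -(0, 1) from rfl, ← star_iota_bV,
      ContinuousMap.star_apply, iota_z2]
    rfl
  rw [dd, map_smul, map_add, h1, h2, Complex.add_conj, smul_eq_mul]
  push_cast
  ring

theorem ev_qq (x : TT) : ev x qq = (((2 + (x.1 : ℂ).re + (x.2 : ℂ).re) / 4 : ℝ) : ℂ) := by
  rw [qq, map_smul, map_add, map_add, map_smul, map_one, ev_cc, ev_dd]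
  push_cast
  simp only [smul_eq_mul]
  ring

theorem ev_aeval (x : TT) (P : ℂ[X]) : ev x (aeval qq P) = aeval (ev x qq) P :=
  (aeval_algHom_apply (ev x) qq P).symm

theorem ev_Dop (a : ℝ) (N : ℕ) (x : TT) : ev x (Dop a (fP (PN N))) =
    ((((x.1 : ℂ).re - (x.2 : ℂ).re) * r0 N ((2 + (x.1 : ℂ).re + (x.2 : ℂ).re) / 4) +
      a * (((x.1 : ℂ).re - (x.2 : ℂ).re) * (r0 N ((2 + (x.1 : ℂ).re + (x.2 : ℂ).re) / 4) +
      3 / 4 * ((x.1 : ℂ).re + (x.2 : ℂ).re) * r1 N ((2 + (x.1 : ℂ).re + (x.2 : ℂ).re) / 4) +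
      ((x.1 : ℂ).re ^ 2 + (x.2 : ℂ).re ^ 2 - 2) / 16 *
        r2 N ((2 + (x.1 : ℂ).re + (x.2 : ℂ).re) / 4))) : ℝ) : ℂ) := by
  rw [Dop_eq, d1_d1_fP, d2_d2_fP, ss_sq, tt_sq, fP]
  simp only [map_add, map_sub, map_smul, map_mul, map_one, map_neg, ev_aeval, ev_cc, ev_dd, ev_qq,
    aeval_PN, aeval_PN', aeval_PN'', smul_eq_mul]
  push_cast
  ring

theorem circle_re_bounds (z : Circle) : -1 ≤ (z : ℂ).re ∧ (z : ℂ).re ≤ 1 := by
  have h := Complex.abs_re_le_norm (z : ℂ)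
  rw [Circle.norm_coe] at h
  exact abs_le.1 h

theorem norm_Dop_fP {a : ℝ} (ha : 0 ≤ a) (N : ℕ) : ‖iota (Dop a (fP (PN N)))‖ ≤ 4 + 12 * a := by
  rw [ContinuousMap.norm_le _ (by positivity)]
  intro x
  rw [← ev_apply, ev_Dop, Complex.norm_real, Real.norm_eq_abs]
  exact bound_all (circle_re_bounds x.1).1 (circle_re_bounds x.1).2 (circle_re_bounds x.2).1
    (circle_re_bounds x.2).2 N ha

theorem ev_one_ss : ev 1 ss = 0 := by
  rw [ss, map_smul, map_sub, ev_apply, ev_apply, iota_bV_apply, iota_bV_apply]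
  simp

theorem ev_one_d1_d1_fP (N : ℕ) :
    ev 1 (d1 (d1 (fP (PN N)))) = ((∑ k ∈ range N, (1 / ((k : ℝ) + 1)) : ℝ) : ℂ) := by
  rw [d1_d1_fP]
  have h1 : ev 1 cc = 1 := by rw [ev_cc]; simp
  have h2 : ev 1 dd = 1 := by rw [ev_dd]; simp
  have h3 : ev 1 qq = ((1 : ℝ) : ℂ) := by
    rw [ev_qq]; norm_num
  simp only [map_add, map_sub, map_smul, map_mul, ev_aeval, h1, h2, h3, ev_one_ss,
    aeval_PN, aeval_PN', aeval_PN'', smul_eq_mul]
  rw [r0]
  simp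

end Pool.Agent.Lib.MP_6a3a89_al
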