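import Mathlib

set_option autoImplicit false

/-!
# Definitions: Harish-Chandra modules, continuous norms and Sobolev norms for `SL(2,ℝ) × SL(2,ℝ)`
-/

namespace Pool.Agent.Lib.MP_6a3a89_al

open Matrix

/-- `SL(2,ℝ)`. -/
abbrev SL : Type := SpecialLinearGroup (Fin 2) ℝ

/-- The Lie algebra `sl(2,ℝ)` of trace zero matrices. -/
abbrev sl : Type := LieAlgebra.SpecialLinear.sl (Fin 2) ℝ

/-- The semisimple (in particular real reductive) group `SL(2,ℝ) × SL(2,ℝ)`. -/
abbrev GG : Type := SL × SL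

/-- The Lie algebra of `GG`. -/
abbrev LG : Type := sl × sl

theorem sl_trace (X : sl) : X.1 0 0 + X.1 1 1 = 0 := by
  have h : Matrix.trace X.1 = 0 := X.2
  rwa [Matrix.trace_fin_two] at h

section
open scoped Matrix.Norms.Operator

theorem hasDerivAt_exp (X : Matrix (Fin 2) (Fin 2) ℝ) (t : ℝ) :
    HasDerivAt (fun u : ℝ => NormedSpace.exp (u • X)) (NormedSpace.exp (t • X) * X) t :=
  hasDerivAt_exp_smul_const X t

theorem hasDerivAt_exp_entry (X : Matrix (Fin 2) (Fin 2) ℝ) (t : ℝ) (i j : Fin 2) :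
    HasDerivAt (fun u : ℝ => NormedSpace.exp (u • X) i j) ((NormedSpace.exp (t • X) * X) i j) t :=
  by
  have h := hasDerivAt_exp X t
  have h1 := (hasDerivAt_pi.1 h i)
  exact (hasDerivAt_pi.1 h1 j)

theorem det_exp_eq_one (X : sl) : Matrix.det (NormedSpace.exp X.1) = 1 := by
  have key : ∀ t : ℝ, HasDerivAt (fun u : ℝ => Matrix.det (NormedSpace.exp (u • X.1))) 0 t := by
    intro t
    have h := fun i j => hasDerivAt_exp_entry X.1 t i j
    have h2 := ((h 0 0).mul (h 1 1)).sub ((h 0 1).mul (h 1 0))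
    have hX : X.1 1 1 = - X.1 0 0 := by have := sl_trace X; linarith
    have h3 : (fun u : ℝ => Matrix.det (NormedSpace.exp (u • X.1))) =
        (fun u : ℝ => NormedSpace.exp (u • X.1) 0 0) * (fun u : ℝ => NormedSpace.exp (u • X.1) 1 1)
        - (fun u : ℝ => NormedSpace.exp (u • X.1) 0 1) *
          (fun u : ℝ => NormedSpace.exp (u • X.1) 1 0) := by
      funext u
      rw [Matrix.det_fin_two]; rfl
    rw [h3]
    refine h2.congr_deriv ?_
    have h4 : ∀ i j : Fin 2, (NormedSpace.exp (t • X.1) * X.1) i j =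
        NormedSpace.exp (t • X.1) i 0 * X.1 0 j + NormedSpace.exp (t • X.1) i 1 * X.1 1 j := by
      intro i j
      rw [Matrix.mul_apply, Fin.sum_univ_two]
    rw [h4, h4, h4, h4, hX]
    ring
  have h0 := is_const_of_deriv_eq_zero (f := fun u : ℝ => Matrix.det (NormedSpace.exp (u • X.1)))
    (fun t => (key t).differentiableAt) (fun t => (key t).deriv) 1 0
  simpa using h0

end

/-- The exponential map `sl(2,ℝ) → SL(2,ℝ)`. -/
noncomputable def expSL (X : sl) : SL := ⟨NormedSpace.exp X.1, det_exp_eq_one X⟩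

/-- The exponential map `LG → GG`. -/
noncomputable def expG (X : LG) : GG := (expSL X.1, expSL X.2)

/-- Real `2 × 2` matrices. -/
abbrev M2 : Type := Matrix (Fin 2) (Fin 2) ℝ

theorem coeMul (a b : SL) : ((a * b : SL) : M2) = (a : M2) * (b : M2) := rfl

theorem coeOne : ((1 : SL) : M2) = 1 := rfl

theorem coeInvMul (a : SL) : ((a⁻¹ : SL) : M2) * (a : M2) = 1 := by
  rw [← coeMul, inv_mul_cancel, coeOne]

theorem coeMulInv (a : SL) : (a : M2) * ((a⁻¹ : SL) : M2) = 1 := by
  rw [← coeMul, mul_inv_cancel, coeOne]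

/-- `SO(2) = {g ∈ SL(2,ℝ) : g gᵀ = 1}`. -/
def SO2 : Subgroup SL where
  carrier := {g | (g : M2) * (g : M2)ᵀ = 1}
  one_mem' := by simp
  mul_mem' := by
    intro a b ha hb
    change (a : M2) * (a : M2)ᵀ = 1 at ha
    change (b : M2) * (b : M2)ᵀ = 1 at hb
    change ((a * b : SL) : M2) * ((a * b : SL) : M2)ᵀ = 1
    rw [coeMul, Matrix.transpose_mul]
    calc (a : M2) * (b : M2) * ((b : M2)ᵀ * (a : M2)ᵀ)
        = (a : M2) * ((b : M2) * (b : M2)ᵀ) * (a : M2)ᵀ := by
          simp only [Matrix.mul_assoc]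
      _ = 1 := by rw [hb, Matrix.mul_one, ha]
  inv_mem' := by
    intro a ha
    change (a : M2) * (a : M2)ᵀ = 1 at ha
    change ((a⁻¹ : SL) : M2) * ((a⁻¹ : SL) : M2)ᵀ = 1
    have h1 : ((a⁻¹ : SL) : M2) = (a : M2)ᵀ := by
      have h2 : ((a⁻¹ : SL) : M2) * (a : M2) = 1 := coeInvMul a
      calc ((a⁻¹ : SL) : M2) = ((a⁻¹ : SL) : M2) * ((a : M2) * (a : M2)ᵀ) := by
            rw [ha, Matrix.mul_one]
        _ = (a : M2)ᵀ := by rw [← Matrix.mul_assoc, h2, Matrix.one_mul]
    rw [h1, Matrix.transpose_transpose]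
    exact mul_eq_one_comm.1 ha

/-- The maximal compact subgroup `K = SO(2) × SO(2)` of `GG`. -/
def KK : Subgroup GG := SO2.prod SO2

section Definitions

variable {V : Type} [AddCommGroup V] [Module ℂ V]

/-- `dπ` is a real linear representation of the Lie algebra `LG` on the complex vector space
`V`. -/
structure IsLieRep (dπ : LG → Module.End ℂ V) : Prop where
  map_add : ∀ X Y : LG, dπ (X + Y) = dπ X + dπ Y
  map_smul : ∀ (r : ℝ) (X : LG), dπ (r • X) = (r : ℂ) • dπ X
  map_lie : ∀ X Y : LG, dπ ⁅X, Y⁆ = dπ X * dπ Y - dπ Y * dπ X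

/-- The restriction of `κ` to `K` is a representation of the group `K` on `V` which is locally
finite (every orbit spans a finite-dimensional space) and continuous (which, for a locally finite
representation, may be tested on linear functionals).  The values of `κ` outside `K` play no
role. -/
structure IsKRep (κ : GG → Module.End ℂ V) : Prop where
  map_one : κ 1 = 1
  map_mul : ∀ k ∈ KK, ∀ l ∈ KK, κ (k * l) = κ k * κ l
  locallyFinite : ∀ v : V,
    ∃ S : Submodule ℂ V, FiniteDimensional ℂ S ∧ ∀ k ∈ KK, κ k v ∈ S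
  continuous : ∀ (v : V) (l : V →ₗ[ℂ] ℂ), ContinuousOn (fun k => l (κ k v)) KK

/-- `Y = Ad(g) X`, i.e. `Y = g X g⁻¹`. -/
def IsAd (g : GG) (X Y : LG) : Prop :=
  (Y.1 : M2) * (g.1 : M2) = (g.1 : M2) * (X.1 : M2) ∧
  (Y.2 : M2) * (g.2 : M2) = (g.2 : M2) * (X.2 : M2)

/-- `(V, dπ, κ)` is a `(𝔤, K)`-module: the differential of `κ` is the restriction of `dπ` to the Lie
algebra of `K` (tested on linear functionals), and `κ(k) dπ(X) = dπ(Ad(k) X) κ(k)`. -/
structure IsGKModule (dπ : LG → Module.End ℂ V) (κ : GG → Module.End ℂ V) : Prop where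
  isLieRep : IsLieRep dπ
  isKRep : IsKRep κ
  differential : ∀ Y : LG, (∀ t : ℝ, expG (t • Y) ∈ KK) → ∀ (v : V) (l : V →ₗ[ℂ] ℂ),
    HasDerivAt (fun t : ℝ => l (κ (expG (t • Y)) v)) (l (dπ Y v)) 0
  equivariant : ∀ k ∈ KK, ∀ X Y : LG, IsAd k X Y → κ k * dπ X = dπ Y * κ k

/-- `(V, dπ, κ)` is a Harish-Chandra module: a `(𝔤, K)`-module which is finitely generated over
the universal enveloping algebra and admissible.  The group `K = SO(2) × SO(2)` is compact and
abelian, so that its irreducible representations are its continuous characters `χ`, and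
admissibility says that the spaces `V[χ] = {v | κ(k) v = χ(k) v for all k ∈ K}` are
finite-dimensional; this is required here for every function `χ`. -/
structure IsHarishChandraModule (dπ : LG → Module.End ℂ V) (κ : GG → Module.End ℂ V) : Prop where
  isGKModule : IsGKModule dπ κ
  finitelyGenerated : ∃ S : Finset V, ∀ W : Submodule ℂ V, (∀ v ∈ S, v ∈ W) →
    (∀ X : LG, ∀ w ∈ W, dπ X w ∈ W) → W = ⊤
  admissible : ∀ χ : GG → ℂ, ∃ S : Submodule ℂ V, FiniteDimensional ℂ S ∧
    ∀ v : V, (∀ k ∈ KK, κ k v = χ k • v) → v ∈ S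

end Definitions

section Norms

/-- `ρ` is a strongly continuous representation of `G = GG` on the Banach space `E` by bounded
operators. -/
structure IsBanachRep {E : Type} [NormedAddCommGroup E] [NormedSpace ℂ E]
    (ρ : GG → E →L[ℂ] E) : Prop where
  map_one : ∀ x : E, ρ 1 x = x
  map_mul : ∀ (g h : GG) (x : E), ρ (g * h) x = ρ g (ρ h x)
  continuous : Continuous fun x : GG × E => ρ x.1 x.2

/-- The vector `x` is smooth: all its orbit maps `(t₁, …, tₙ) ↦ ρ(exp(t₁X₁) ⋯ exp(tₙXₙ)) x` are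
`C^m` for all `m`. -/
def IsSmoothVector {E : Type} [NormedAddCommGroup E] [NormedSpace ℂ E]
    (ρ : GG → E →L[ℂ] E) (x : E) : Prop :=
  ∀ (n m : ℕ) (X : Fin n → LG), ContDiff ℝ m
    (fun t : Fin n → ℝ => ρ (List.ofFn fun i => expG (t i • X i)).prod x)

variable {V : Type} [AddCommGroup V] [Module ℂ V]

/-- The vectors of `V ⊆ E` are smooth for `ρ`, the derived action of the Lie algebra on `V` is `dπ`
and the action of `K` on `V` is `κ`. -/
structure InducesModule {E : Type} [NormedAddCommGroup E] [NormedSpace ℂ E]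
    (ρ : GG → E →L[ℂ] E) (ι : V → E)
    (dπ : LG → Module.End ℂ V) (κ : GG → Module.End ℂ V) : Prop where
  smooth : ∀ v : V, IsSmoothVector ρ (ι v)
  derived : ∀ (X : LG) (v : V), HasDerivAt (fun t : ℝ => ρ (expG (t • X)) (ι v)) (ι (dπ X v)) 0
  onK : ∀ k ∈ KK, ∀ v : V, ρ k (ι v) = ι (κ k v)

/-- The norm `p` on `V` is `G`-continuous: there are a Banach space `E`, an isometric embedding
`ι` of `(V, p)` into `E` with dense image (so `E` is the completion of `(V, p)`), and a strongly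
continuous representation `ρ` of `G = GG` on `E` by bounded operators, such that the vectors of
`V` are smooth and the induced actions of the Lie algebra and of `K` on `V` are `dπ` and `κ` (so
that the vectors of `V` are `K`-finite). -/
def IsGContinuous (dπ : LG → Module.End ℂ V) (κ : GG → Module.End ℂ V) (p : V → ℝ) : Prop :=
  ∃ (E : Type) (_ : NormedAddCommGroup E) (_ : NormedSpace ℂ E)
    (ι : V →ₗ[ℂ] E) (ρ : GG → E →L[ℂ] E),
    CompleteSpace E ∧ (∀ v : V, ‖ι v‖ = p v) ∧ DenseRange ι ∧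
    IsBanachRep ρ ∧ InducesModule ρ ι dπ κ

/-- The matrix `J` spanning the Lie algebra of `SO(2)`. -/
def JJ : sl := ⟨!![0, 1; -1, 0], by
  change Matrix.trace (!![0, 1; -1, 0] : M2) = 0
  rw [Matrix.trace_fin_two]; simp⟩

/-- The Laplacian `Δ_K = - (Y₁² + Y₂²)` of `K`, for the basis `Y₁ = √c (J, 0)`, `Y₂ = √c (0, J)` of
the Lie algebra of `K`.  The Killing form of `sl(2,ℝ) × sl(2,ℝ)` is
`B(X, Y) = 4 tr(X₁Y₁) + 4 tr(X₂Y₂)`, so that `- B((J,0),(J,0)) = 8` and the basis is orthonormal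
with respect to `-B` for `c = 1/8`. -/
noncomputable def laplacianK (c : ℝ) (dπ : LG → Module.End ℂ V) : Module.End ℂ V :=
  -((c : ℂ) • (dπ (JJ, 0) ^ 2 + dπ (0, JJ) ^ 2))

/-- `D = D_s = (1 + Δ_K)^{s/2}`: on each eigenspace of `Δ_K`, with eigenvalue `μ`, it acts by
`(1 + μ)^{s/2}`.  (A Harish-Chandra module is the direct sum of the eigenspaces of `Δ_K`.) -/
def IsSobolevOperator (c : ℝ) (dπ : LG → Module.End ℂ V) (s : ℝ) (D : Module.End ℂ V) : Prop :=
  ∀ (μ : ℝ) (v : V), laplacianK c dπ v = (μ : ℂ) • v → D v = (((1 + μ) ^ (s / 2) : ℝ) : ℂ) • v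

end Norms

end Pool.Agent.Lib.MP_6a3a89_al
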