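import Pool.Agent.Lib.MP_6a3a89_al.Action

set_option autoImplicit false

/-!
# The Laurent polynomials form a Harish-Chandra module
-/

namespace Pool.Agent.Lib.MP_6a3a89_al

open Matrix ComplexConjugate

theorem cP_eq (X : M2) : cP X = (((X 0 0 + X 1 1) / 2 : ℝ) : ℂ) +
    (((X 1 0 - X 0 1) / 2 : ℝ) : ℂ) * Complex.I := by
  apply Complex.ext <;> simp [cP]

theorem cQ_eq (X : M2) : cQ X = (((X 0 0 - X 1 1) / 2 : ℝ) : ℂ) +
    (((X 1 0 + X 0 1) / 2 : ℝ) : ℂ) * Complex.I := by
  apply Complex.ext <;> simp [cQ]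

theorem hasDerivAt_cP_exp (X : M2) (t : ℝ) :
    HasDerivAt (fun u : ℝ => cP (NormedSpace.exp (u • X))) (cP (NormedSpace.exp (t • X) * X)) t := by
  have h := fun i j => hasDerivAt_exp_entry X t i j
  have h1 := (((h 0 0).add (h 1 1)).div_const 2).ofReal_comp
  have h2 := ((((h 1 0).sub (h 0 1)).div_const 2).ofReal_comp).mul_const Complex.I
  have h3 := h1.add h2
  rw [cP_eq]
  refine h3.congr_of_eventuallyEq (Filter.Eventually.of_forall fun u => ?_)
  exact cP_eq _

theorem hasDerivAt_cQ_exp (X : M2) (t : ℝ) :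
    HasDerivAt (fun u : ℝ => cQ (NormedSpace.exp (u • X))) (cQ (NormedSpace.exp (t • X) * X)) t := by
  have h := fun i j => hasDerivAt_exp_entry X t i j
  have h1 := (((h 0 0).sub (h 1 1)).div_const 2).ofReal_comp
  have h2 := ((((h 1 0).add (h 0 1)).div_const 2).ofReal_comp).mul_const Complex.I
  have h3 := h1.add h2
  rw [cQ_eq]
  refine h3.congr_of_eventuallyEq (Filter.Eventually.of_forall fun u => ?_)
  exact cQ_eq _

theorem exp_zero_smul_mul (X : M2) : NormedSpace.exp ((0 : ℝ) • X) * X = X := by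
  rw [zero_smul, NormedSpace.exp_zero, Matrix.one_mul]

theorem coe_expSL (X : sl) : ((expSL X : SL) : M2) = NormedSpace.exp (X : M2) := rfl

theorem hasDerivAt_conj {f : ℝ → ℂ} {f' : ℂ} {t : ℝ} (h : HasDerivAt f f' t) :
    HasDerivAt (fun u => conj (f u)) (conj f') t := by
  have := (Complex.conjCLE.toContinuousLinearMap.hasFDerivAt (x := f t)).comp_hasDerivAt t h
  exact this

theorem continuous_entry (i j : Fin 2) : Continuous fun g : SL => (g : M2) i j :=
  (continuous_id.matrix_elem i j).comp continuous_subtype_val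

theorem continuous_cP : Continuous fun g : SL => cP (g : M2) := by
  have : (fun g : SL => cP (g : M2)) = fun g : SL =>
      (((((g : M2) 0 0 + (g : M2) 1 1) / 2 : ℝ) : ℂ) +
      ((((g : M2) 1 0 - (g : M2) 0 1) / 2 : ℝ) : ℂ) * Complex.I) := funext fun g => cP_eq _
  rw [this]
  exact ((Complex.continuous_ofReal.comp
    (((continuous_entry 0 0).add (continuous_entry 1 1)).div_const 2))).add
    ((Complex.continuous_ofReal.comp
      (((continuous_entry 1 0).sub (continuous_entry 0 1)).div_const 2)).mul continuous_const)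

theorem continuous_cQ : Continuous fun g : SL => cQ (g : M2) := by
  have : (fun g : SL => cQ (g : M2)) = fun g : SL =>
      (((((g : M2) 0 0 - (g : M2) 1 1) / 2 : ℝ) : ℂ) +
      ((((g : M2) 1 0 + (g : M2) 0 1) / 2 : ℝ) : ℂ) * Complex.I) := funext fun g => cQ_eq _
  rw [this]
  exact ((Complex.continuous_ofReal.comp
    (((continuous_entry 0 0).sub (continuous_entry 1 1)).div_const 2))).add
    ((Complex.continuous_ofReal.comp
      (((continuous_entry 1 0).add (continuous_entry 0 1)).div_const 2)).mul continuous_const)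

theorem continuous_charK (a : ℤ × ℤ) : Continuous fun k : KK => charK k a := by
  have h1 : Continuous fun k : KK => conj (cP (((k : GG).1 : SL) : M2)) :=
    Complex.continuous_conj.comp (continuous_cP.comp (continuous_fst.comp continuous_subtype_val))
  have h2 : Continuous fun k : KK => conj (cP (((k : GG).2 : SL) : M2)) :=
    Complex.continuous_conj.comp (continuous_cP.comp (continuous_snd.comp continuous_subtype_val))
  exact (h1.zpow₀ (2 * a.1) fun k => Or.inl (cP_ne_zero k.2.1)).mul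
    (h2.zpow₀ (2 * a.2) fun k => Or.inl (cP_ne_zero k.2.2))

theorem orbit_finite (v : VV) :
    FiniteDimensional ℂ (Submodule.span ℂ (Set.range fun k : KK => kap k v)) := by
  have key : ∃ S : Submodule ℂ VV, FiniteDimensional ℂ S ∧ ∀ k : KK, kap k v ∈ S := by
    induction v using VV_induction with
    | h0 => exact ⟨⊥, inferInstance, fun k => by rw [map_zero]; exact Submodule.zero_mem _⟩
    | hadd u w hu hw =>
      obtain ⟨S, hS, hSk⟩ := hu
      obtain ⟨T, hT, hTk⟩ := hw
      refine ⟨S ⊔ T, inferInstance, fun k => ?_⟩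
      rw [map_add]
      exact Submodule.add_mem_sup (hSk k) (hTk k)
    | hb a r =>
      refine ⟨Submodule.span ℂ {bV a}, inferInstance, fun k => ?_⟩
      rw [map_smul, kap_bV]
      exact Submodule.smul_mem _ _ (Submodule.smul_mem _ _ (Submodule.mem_span_singleton_self _))
  obtain ⟨S, hS, hSk⟩ := key
  refine Submodule.finiteDimensional_of_le (S₂ := S) ?_
  rw [Submodule.span_le]
  rintro _ ⟨k, rfl⟩
  exact hSk k

theorem kap_continuous (v : VV) (l : VV →ₗ[ℂ] ℂ) : Continuous fun k : KK => l (kap k v) := by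
  induction v using VV_induction with
  | h0 => simpa using continuous_const
  | hadd u w hu hw => simp only [map_add]; exact hu.add hw
  | hb a r =>
    simp only [map_smul, kap_bV, smul_eq_mul]
    exact continuous_const.mul ((continuous_charK a).mul continuous_const)

theorem charK_hasDerivAt (Y : LG) (γ : ℝ → KK) (hγ : ∀ t : ℝ, (γ t : GG) = expG (t • Y))
    (a : ℤ × ℤ) : HasDerivAt (fun t : ℝ => charK (γ t) a)
      (-(2 * a.1) * cP (Y.1 : M2) - (2 * a.2) * cP (Y.2 : M2)) 0 := by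
  have e1 : ∀ t : ℝ, (((γ t : GG).1 : SL) : M2) = NormedSpace.exp (t • (Y.1 : M2)) := by
    intro t; rw [hγ t]; rfl
  have e2 : ∀ t : ℝ, (((γ t : GG).2 : SL) : M2) = NormedSpace.exp (t • (Y.2 : M2)) := by
    intro t; rw [hγ t]; rfl
  have h1 := hasDerivAt_conj (hasDerivAt_cP_exp (Y.1 : M2) 0)
  have h2 := hasDerivAt_conj (hasDerivAt_cP_exp (Y.2 : M2) 0)
  rw [exp_zero_smul_mul, cP_sl] at h1 h2
  have hone : conj (cP (NormedSpace.exp ((0 : ℝ) • (Y.1 : M2)))) = 1 := by
    rw [zero_smul, NormedSpace.exp_zero, cP_one, map_one]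
  have hone2 : conj (cP (NormedSpace.exp ((0 : ℝ) • (Y.2 : M2)))) = 1 := by
    rw [zero_smul, NormedSpace.exp_zero, cP_one, map_one]
  have z1 : HasDerivAt (fun x : ℂ => x ^ (2 * a.1)) (((2 * a.1 : ℤ) : ℂ) * 1 ^ (2 * a.1 - 1))
      (conj (cP (NormedSpace.exp ((0 : ℝ) • (Y.1 : M2))))) := by
    rw [hone]; exact hasDerivAt_zpow _ _ (Or.inl one_ne_zero)
  have z2 : HasDerivAt (fun x : ℂ => x ^ (2 * a.2)) (((2 * a.2 : ℤ) : ℂ) * 1 ^ (2 * a.2 - 1))
      (conj (cP (NormedSpace.exp ((0 : ℝ) • (Y.2 : M2))))) := by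
    rw [hone2]; exact hasDerivAt_zpow _ _ (Or.inl one_ne_zero)
  have c1 := z1.comp (0 : ℝ) h1
  have c2 := z2.comp (0 : ℝ) h2
  have c3 := c1.mul c2
  have hfun : (fun t : ℝ => charK (γ t) a) =
      ((fun x : ℂ => x ^ (2 * a.1)) ∘ fun u : ℝ => conj (cP (NormedSpace.exp (u • (Y.1 : M2))))) *
      ((fun x : ℂ => x ^ (2 * a.2)) ∘ fun u : ℝ => conj (cP (NormedSpace.exp (u • (Y.2 : M2))))) :=
    by
    funext t
    rw [charK, e1, e2]; rfl
  rw [hfun]
  refine c3.congr_deriv ?_
  simp only [Function.comp_apply, hone, hone2, _root_.one_zpow]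
  push_cast
  ring

theorem cQ_eq_zero_of_mem (Y : sl) (hY : ∀ t : ℝ, expSL (t • Y) ∈ SO2) : cQ (Y : M2) = 0 := by
  have h1 := hasDerivAt_cQ_exp (Y : M2) 0
  rw [exp_zero_smul_mul] at h1
  have h2 : (fun u : ℝ => cQ (NormedSpace.exp (u • (Y : M2)))) = fun _ => 0 := by
    funext u
    exact (SO2_spec (hY u)).1
  rw [h2] at h1
  exact h1.unique (hasDerivAt_const _ _)

theorem dpi_bV (X : LG) (a : ℤ × ℤ) : dpi X (bV a) =
    (a.1 : ℂ) • (u1 X.1 * bV a) + (a.2 : ℂ) • (u2 X.2 * bV a) := by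
  rw [dpi_apply, d1_bV, d2_bV, mul_smul_comm, mul_smul_comm]

theorem kap_differential (Y : LG) (γ : ℝ → KK) (hγ : ∀ t : ℝ, (γ t : GG) = expG (t • Y))
    (v : VV) (l : VV →ₗ[ℂ] ℂ) : HasDerivAt (fun t : ℝ => l (kap (γ t) v)) (l (dpi Y v)) 0 := by
  have q1 : cQ (Y.1 : M2) = 0 := by
    apply cQ_eq_zero_of_mem
    intro t
    have := (γ t).2.1
    rw [hγ t] at this
    exact this
  have q2 : cQ (Y.2 : M2) = 0 := by
    apply cQ_eq_zero_of_mem
    intro t
    have := (γ t).2.2
    rw [hγ t] at this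
    exact this
  induction v using VV_induction with
  | h0 => simpa using hasDerivAt_const _ _
  | hadd u w hu hw => simp only [map_add]; exact hu.add hw
  | hb a r =>
    simp only [map_smul, kap_bV, smul_eq_mul]
    have h := ((charK_hasDerivAt Y γ hγ a).mul_const (l (bV a))).const_mul r
    refine h.congr_deriv ?_
    rw [dpi_bV, u1, u2, q1, q2]
    simp only [neg_zero, zero_smul, map_zero, zero_add, add_zero, smul_mul_assoc, one_mul,
      map_add, map_smul, smul_eq_mul]
    ring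

theorem kap_u1 (k : KK) (X : M2) (Y : M2)
    (h : Y = ((k : GG).1 : M2) * X * (((k : GG).1⁻¹ : SL) : M2)) : kap k (u1 X) = u1 Y := by
  obtain ⟨hq, hp⟩ := SO2_spec k.2.1
  have hinv := SO2_spec (SO2.inv_mem k.2.1)
  have e : cP (((k : GG).1⁻¹ : SL) : M2) = conj (cP ((k : GG).1 : M2)) := by
    have h1 := coeMulInv (k : GG).1
    have h2 := congrArg cP h1
    rw [cP_mul, hq, zero_mul, add_zero, cP_one] at h2
    have hne : cP ((k : GG).1 : M2) ≠ 0 := left_ne_zero_of_mul (hp ▸ one_ne_zero)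
    exact mul_left_cancel₀ hne (h2.trans hp.symm)
  have hPY : cP Y = cP X := by
    rw [h, cP_mul, cP_mul, hq, hinv.1, e, map_zero, mul_zero, zero_mul, add_zero, add_zero]
    linear_combination (cP X) * hp
  have hQY : cQ Y = cP ((k : GG).1 : M2) ^ 2 * cQ X := by
    rw [h, cQ_mul, cQ_mul, hq, hinv.1, e, Complex.conj_conj, mul_zero, zero_mul, add_zero,
      zero_add]
    ring
  have hone : kap k (1 : VV) = 1 := by
    rw [← bV_zero, kap_bV, charK]; simp
  have hm : charK k (-1, 0) = cP ((k : GG).1 : M2) ^ 2 := by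
    rw [charK]
    simp only [mul_zero, zpow_zero, mul_one]
    have : (2 * (-1) : ℤ) = -2 := by norm_num
    rw [this, _root_.zpow_neg]
    apply inv_eq_of_mul_eq_one_left
    norm_cast
    rw [← mul_pow, hp, one_pow]
  rw [u1, map_add, map_add, map_smul, map_smul, map_smul, kap_bV, kap_bV, hone, hm, charK_10, u1,
    hPY, hQY, smul_smul, smul_smul, map_mul, map_pow]
  congr 2
  · ring_nf
  · ring_nf

theorem kap_u2 (k : KK) (X : M2) (Y : M2)
    (h : Y = ((k : GG).2 : M2) * X * (((k : GG).2⁻¹ : SL) : M2)) : kap k (u2 X) = u2 Y := by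
  obtain ⟨hq, hp⟩ := SO2_spec k.2.2
  have hinv := SO2_spec (SO2.inv_mem k.2.2)
  have e : cP (((k : GG).2⁻¹ : SL) : M2) = conj (cP ((k : GG).2 : M2)) := by
    have h1 := coeMulInv (k : GG).2
    have h2 := congrArg cP h1
    rw [cP_mul, hq, zero_mul, add_zero, cP_one] at h2
    have hne : cP ((k : GG).2 : M2) ≠ 0 := left_ne_zero_of_mul (hp ▸ one_ne_zero)
    exact mul_left_cancel₀ hne (h2.trans hp.symm)
  have hPY : cP Y = cP X := by
    rw [h, cP_mul, cP_mul, hq, hinv.1, e, map_zero, mul_zero, zero_mul, add_zero, add_zero]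
    linear_combination (cP X) * hp
  have hQY : cQ Y = cP ((k : GG).2 : M2) ^ 2 * cQ X := by
    rw [h, cQ_mul, cQ_mul, hq, hinv.1, e, Complex.conj_conj, mul_zero, zero_mul, add_zero,
      zero_add]
    ring
  have hone : kap k (1 : VV) = 1 := by
    rw [← bV_zero, kap_bV, charK]; simp
  have hm : charK k (0, -1) = cP ((k : GG).2 : M2) ^ 2 := by
    rw [charK]
    simp only [mul_zero, zpow_zero, one_mul]
    have : (2 * (-1) : ℤ) = -2 := by norm_num
    rw [this, _root_.zpow_neg]
    apply inv_eq_of_mul_eq_one_left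
    norm_cast
    rw [← mul_pow, hp, one_pow]
  rw [u2, map_add, map_add, map_smul, map_smul, map_smul, kap_bV, kap_bV, hone, hm, charK_01, u2,
    hPY, hQY, smul_smul, smul_smul, map_mul, map_pow]
  congr 2
  · ring_nf
  · ring_nf

/-- The action of `K`, extended to a function on `GG`. -/
noncomputable def kapG (g : GG) : Module.End ℂ VV := wt (charK g)

theorem kapG_eq {g : GG} (hg : g ∈ KK) : kapG g = kap ⟨g, hg⟩ := rfl

theorem isLieRep : IsLieRep dpi where
  map_add X Y := by
    apply LinearMap.ext; intro v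
    rw [LinearMap.add_apply, dpi_apply, dpi_apply, dpi_apply]
    change u1 ((X.1 : M2) + (Y.1 : M2)) * d1 v + u2 ((X.2 : M2) + (Y.2 : M2)) * d2 v = _
    rw [u1_add, u2_add]; ring
  map_smul r X := by
    apply LinearMap.ext; intro v
    rw [LinearMap.smul_apply, dpi_apply, dpi_apply]
    change u1 (r • (X.1 : M2)) * d1 v + u2 (r • (X.2 : M2)) * d2 v = _
    rw [u1_smul, u2_smul, smul_mul_assoc, smul_mul_assoc, smul_add]
  map_lie := dpi_lie

theorem isKRep : IsKRep kapG where
  map_one := kap.map_one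
  map_mul k hk l hl := kap.map_mul ⟨k, hk⟩ ⟨l, hl⟩
  locallyFinite v := by
    refine ⟨Submodule.span ℂ (Set.range fun k : KK => kap k v), orbit_finite v, fun k hk => ?_⟩
    exact Submodule.subset_span ⟨⟨k, hk⟩, rfl⟩
  continuous v l := by
    rw [continuousOn_iff_continuous_domRestrict]
    exact kap_continuous v l

theorem isGKModule : IsGKModule dpi kapG where
  isLieRep := isLieRep
  isKRep := isKRep
  differential Y hY v l :=
    kap_differential Y (fun t => ⟨expG (t • Y), hY t⟩) (fun _ => rfl) v l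
  equivariant k hk X Y h := by
    have h1 : (Y.1 : M2) = (k.1 : M2) * (X.1 : M2) * ((k.1⁻¹ : SL) : M2) := by
      rw [← h.1, Matrix.mul_assoc, coeMulInv, Matrix.mul_one]
    have h2 : (Y.2 : M2) = (k.2 : M2) * (X.2 : M2) * ((k.2⁻¹ : SL) : M2) := by
      rw [← h.2, Matrix.mul_assoc, coeMulInv, Matrix.mul_one]
    rw [kapG_eq hk]
    apply LinearMap.ext; intro v
    rw [Module.End.mul_apply, Module.End.mul_apply, dpi_apply, dpi_apply, map_add, kap_mul,
      kap_mul, kap_u1 ⟨k, hk⟩ _ _ h1, kap_u2 ⟨k, hk⟩ _ _ h2, kap_d1, kap_d2]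

end Pool.Agent.Lib.MP_6a3a89_al
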