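import Pool.Agent.Lib.MP_6a3a89_al.GKModule

set_option autoImplicit false

/-!
# Finite generation and admissibility
-/

namespace Pool.Agent.Lib.MP_6a3a89_al

open Matrix ComplexConjugate

/-- The diagonal matrix `diag(1,-1)`. -/
def Hs : sl := ⟨!![1, 0; 0, -1], by
  change Matrix.trace (!![1, 0; 0, -1] : M2) = 0
  rw [Matrix.trace_fin_two]; simp⟩

/-- The symmetric off-diagonal matrix. -/
def Ss : sl := ⟨!![0, 1; 1, 0], by
  change Matrix.trace (!![0, 1; 1, 0] : M2) = 0
  rw [Matrix.trace_fin_two]; simp⟩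

theorem cP_Hs : cP (Hs : M2) = 0 := by
  apply Complex.ext <;> simp [cP, Hs]
theorem cQ_Hs : cQ (Hs : M2) = 1 := by
  apply Complex.ext <;> simp [cQ, Hs]
theorem cP_Ss : cP (Ss : M2) = 0 := by
  apply Complex.ext <;> simp [cP, Ss]
theorem cQ_Ss : cQ (Ss : M2) = Complex.I := by
  apply Complex.ext <;> simp [cQ, Ss]
theorem cP_JJ : cP (JJ : M2) = -Complex.I := by
  apply Complex.ext <;> simp [cP, JJ]; norm_num
theorem cQ_JJ : cQ (JJ : M2) = 0 := by
  apply Complex.ext <;> simp [cQ, JJ]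
theorem cP_zero : cP ((0 : sl) : M2) = 0 := by
  apply Complex.ext <;> simp [cP]
theorem cQ_zero : cQ ((0 : sl) : M2) = 0 := by
  apply Complex.ext <;> simp [cQ]

theorem u1_Hs : u1 (Hs : M2) = -bV (-1, 0) + bV (1, 0) := by
  rw [u1, cP_Hs, cQ_Hs, map_one]; module
theorem u1_Ss : u1 (Ss : M2) = (-Complex.I) • (bV (-1, 0) + bV (1, 0)) := by
  rw [u1, cP_Ss, cQ_Ss, Complex.conj_I]; module
theorem u2_Hs : u2 (Hs : M2) = -bV (0, -1) + bV (0, 1) := by
  rw [u2, cP_Hs, cQ_Hs, map_one]; module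
theorem u2_Ss : u2 (Ss : M2) = (-Complex.I) • (bV (0, -1) + bV (0, 1)) := by
  rw [u2, cP_Ss, cQ_Ss, Complex.conj_I]; module
theorem u1_zero : u1 ((0 : sl) : M2) = 0 := by
  rw [u1, cP_zero, cQ_zero, map_zero]; module
theorem u2_zero : u2 ((0 : sl) : M2) = 0 := by
  rw [u2, cP_zero, cQ_zero, map_zero]; module

section Gen

variable (W : Submodule ℂ VV) (hW : ∀ X : LG, ∀ w ∈ W, dpi X w ∈ W)

include hW

theorem W_up1 {w : VV} (hw : w ∈ W) : bV (1, 0) * d1 w ∈ W := by
  have h1 := hW (Hs, 0) w hw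
  have h2 := hW (Ss, 0) w hw
  rw [dpi_apply] at h1 h2
  change u1 (Hs : M2) * d1 w + u2 ((0 : sl) : M2) * d2 w ∈ W at h1
  change u1 (Ss : M2) * d1 w + u2 ((0 : sl) : M2) * d2 w ∈ W at h2
  rw [u2_zero, zero_mul, add_zero] at h1 h2
  rw [u1_Hs] at h1
  rw [u1_Ss] at h2
  have h3 := W.smul_mem (1 / 2 : ℂ) (W.add_mem h1 (W.smul_mem Complex.I h2))
  convert h3 using 1
  rw [smul_mul_assoc, smul_smul, mul_neg, Complex.I_mul_I, neg_neg, one_smul]
  have : (-bV (-1, 0) + bV (1, 0)) * d1 w + (bV (-1, 0) + bV (1, 0)) * d1 w =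
      (2 : ℂ) • (bV (1, 0) * d1 w) := by
    rw [two_smul]; ring
  rw [this, smul_smul]; norm_num

theorem W_down1 {w : VV} (hw : w ∈ W) : bV (-1, 0) * d1 w ∈ W := by
  have h1 := hW (Hs, 0) w hw
  have h2 := hW (Ss, 0) w hw
  rw [dpi_apply] at h1 h2
  change u1 (Hs : M2) * d1 w + u2 ((0 : sl) : M2) * d2 w ∈ W at h1
  change u1 (Ss : M2) * d1 w + u2 ((0 : sl) : M2) * d2 w ∈ W at h2
  rw [u2_zero, zero_mul, add_zero] at h1 h2
  rw [u1_Hs] at h1
  rw [u1_Ss] at h2
  have h3 := W.smul_mem (1 / 2 : ℂ) (W.sub_mem (W.smul_mem Complex.I h2) h1)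
  convert h3 using 1
  rw [smul_mul_assoc, smul_smul, mul_neg, Complex.I_mul_I, neg_neg, one_smul]
  have : (bV (-1, 0) + bV (1, 0)) * d1 w - (-bV (-1, 0) + bV (1, 0)) * d1 w =
      (2 : ℂ) • (bV (-1, 0) * d1 w) := by
    rw [two_smul]; ring
  rw [this, smul_smul]; norm_num

theorem W_up2 {w : VV} (hw : w ∈ W) : bV (0, 1) * d2 w ∈ W := by
  have h1 := hW (0, Hs) w hw
  have h2 := hW (0, Ss) w hw
  rw [dpi_apply] at h1 h2
  change u1 ((0 : sl) : M2) * d1 w + u2 (Hs : M2) * d2 w ∈ W at h1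
  change u1 ((0 : sl) : M2) * d1 w + u2 (Ss : M2) * d2 w ∈ W at h2
  rw [u1_zero, zero_mul, zero_add] at h1 h2
  rw [u2_Hs] at h1
  rw [u2_Ss] at h2
  have h3 := W.smul_mem (1 / 2 : ℂ) (W.add_mem h1 (W.smul_mem Complex.I h2))
  convert h3 using 1
  rw [smul_mul_assoc, smul_smul, mul_neg, Complex.I_mul_I, neg_neg, one_smul]
  have : (-bV (0, -1) + bV (0, 1)) * d2 w + (bV (0, -1) + bV (0, 1)) * d2 w =
      (2 : ℂ) • (bV (0, 1) * d2 w) := by
    rw [two_smul]; ring
  rw [this, smul_smul]; norm_num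

theorem W_down2 {w : VV} (hw : w ∈ W) : bV (0, -1) * d2 w ∈ W := by
  have h1 := hW (0, Hs) w hw
  have h2 := hW (0, Ss) w hw
  rw [dpi_apply] at h1 h2
  change u1 ((0 : sl) : M2) * d1 w + u2 (Hs : M2) * d2 w ∈ W at h1
  change u1 ((0 : sl) : M2) * d1 w + u2 (Ss : M2) * d2 w ∈ W at h2
  rw [u1_zero, zero_mul, zero_add] at h1 h2
  rw [u2_Hs] at h1
  rw [u2_Ss] at h2
  have h3 := W.smul_mem (1 / 2 : ℂ) (W.sub_mem (W.smul_mem Complex.I h2) h1)
  convert h3 using 1
  rw [smul_mul_assoc, smul_smul, mul_neg, Complex.I_mul_I, neg_neg, one_smul]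
  have : (bV (0, -1) + bV (0, 1)) * d2 w - (-bV (0, -1) + bV (0, 1)) * d2 w =
      (2 : ℂ) • (bV (0, -1) * d2 w) := by
    rw [two_smul]; ring
  rw [this, smul_smul]; norm_num

theorem W_all1 {n : ℤ} (h1 : bV (1, n) ∈ W) (h2 : bV (-1, n) ∈ W) (m : ℤ) : bV (m, n) ∈ W := by
  have hpos : ∀ k : ℕ, bV ((k : ℤ) + 1, n) ∈ W := by
    intro k
    induction k with
    | zero => simpa using h1
    | succ k ih =>
      have h := W_up1 W hW ih
      rw [d1_bV, mul_smul_comm, bV_mul] at h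
      have hne : (((k : ℤ) + 1 : ℤ) : ℂ) ≠ 0 := by
        have : (k : ℤ) + 1 ≠ 0 := by omega
        exact_mod_cast this
      have h' := W.smul_mem ((((k : ℤ) + 1 : ℤ) : ℂ)⁻¹) h
      rw [smul_smul, inv_mul_cancel₀ hne, one_smul] at h'
      convert h' using 2
      refine Prod.ext ?_ ?_
      · simp
        try ring
      · simp
        try ring
  have hneg : ∀ k : ℕ, bV (-((k : ℤ) + 1), n) ∈ W := by
    intro k
    induction k with
    | zero => simpa using h2
    | succ k ih =>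
      have h := W_down1 W hW ih
      rw [d1_bV, mul_smul_comm, bV_mul] at h
      have hne : ((-((k : ℤ) + 1) : ℤ) : ℂ) ≠ 0 := by
        have : -((k : ℤ) + 1) ≠ 0 := by omega
        exact_mod_cast this
      have h' := W.smul_mem (((-((k : ℤ) + 1) : ℤ) : ℂ)⁻¹) h
      rw [smul_smul, inv_mul_cancel₀ hne, one_smul] at h'
      convert h' using 2
      refine Prod.ext ?_ ?_
      · simp
        try ring
      · simp
        try ring
  have hzero : bV (0, n) ∈ W := by
    have h := W_down1 W hW h1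
    rw [d1_bV, mul_smul_comm, bV_mul] at h
    simpa using h
  rcases lt_trichotomy m 0 with hm | hm | hm
  · obtain ⟨k, hk⟩ := Int.eq_ofNat_of_zero_le (show 0 ≤ -m - 1 by omega)
    have := hneg k
    rwa [show -((k : ℤ) + 1) = m by omega] at this
  · rw [hm]; exact hzero
  · obtain ⟨k, hk⟩ := Int.eq_ofNat_of_zero_le (show 0 ≤ m - 1 by omega)
    have := hpos k
    rwa [show (k : ℤ) + 1 = m by omega] at this

theorem W_all2 {m : ℤ} (h1 : bV (m, 1) ∈ W) (h2 : bV (m, -1) ∈ W) (n : ℤ) : bV (m, n) ∈ W := by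
  have hpos : ∀ k : ℕ, bV (m, (k : ℤ) + 1) ∈ W := by
    intro k
    induction k with
    | zero => simpa using h1
    | succ k ih =>
      have h := W_up2 W hW ih
      rw [d2_bV, mul_smul_comm, bV_mul] at h
      have hne : (((k : ℤ) + 1 : ℤ) : ℂ) ≠ 0 := by
        have : (k : ℤ) + 1 ≠ 0 := by omega
        exact_mod_cast this
      have h' := W.smul_mem ((((k : ℤ) + 1 : ℤ) : ℂ)⁻¹) h
      rw [smul_smul, inv_mul_cancel₀ hne, one_smul] at h'
      convert h' using 2
      refine Prod.ext ?_ ?_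
      · simp
        try ring
      · simp
        try ring
  have hneg : ∀ k : ℕ, bV (m, -((k : ℤ) + 1)) ∈ W := by
    intro k
    induction k with
    | zero => simpa using h2
    | succ k ih =>
      have h := W_down2 W hW ih
      rw [d2_bV, mul_smul_comm, bV_mul] at h
      have hne : ((-((k : ℤ) + 1) : ℤ) : ℂ) ≠ 0 := by
        have : -((k : ℤ) + 1) ≠ 0 := by omega
        exact_mod_cast this
      have h' := W.smul_mem (((-((k : ℤ) + 1) : ℤ) : ℂ)⁻¹) h
      rw [smul_smul, inv_mul_cancel₀ hne, one_smul] at h'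
      convert h' using 2
      refine Prod.ext ?_ ?_
      · simp
        try ring
      · simp
        try ring
  have hzero : bV (m, 0) ∈ W := by
    have h := W_down2 W hW h1
    rw [d2_bV, mul_smul_comm, bV_mul] at h
    simpa using h
  rcases lt_trichotomy n 0 with hm | hm | hm
  · obtain ⟨k, hk⟩ := Int.eq_ofNat_of_zero_le (show 0 ≤ -n - 1 by omega)
    have := hneg k
    rwa [show -((k : ℤ) + 1) = n by omega] at this
  · rw [hm]; exact hzero
  · obtain ⟨k, hk⟩ := Int.eq_ofNat_of_zero_le (show 0 ≤ n - 1 by omega)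
    have := hpos k
    rwa [show (k : ℤ) + 1 = n by omega] at this

end Gen

open Classical in
theorem finitelyGenerated_VV : ∃ S : Finset VV, ∀ W : Submodule ℂ VV, (∀ v ∈ S, v ∈ W) →
    (∀ X : LG, ∀ w ∈ W, dpi X w ∈ W) → W = ⊤ := by
  refine ⟨{bV (1, 1), bV (-1, 1), bV (1, -1), bV (-1, -1)}, fun W hS hW => ?_⟩
  have h1 : ∀ m : ℤ, bV (m, 1) ∈ W := W_all1 W hW (hS _ (by simp)) (hS _ (by simp))
  have h2 : ∀ m : ℤ, bV (m, -1) ∈ W := W_all1 W hW (hS _ (by simp)) (hS _ (by simp))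
  have h3 : ∀ a : ℤ × ℤ, bV a ∈ W := fun a => W_all2 W hW (h1 a.1) (h2 a.1) a.2
  rw [eq_top_iff, ← bV.span_eq, Submodule.span_le]
  rintro _ ⟨a, rfl⟩
  exact h3 a

/-- The rotation by the angle `θ`. -/
noncomputable def rot (θ : ℝ) : SL := ⟨!![Real.cos θ, Real.sin θ; -Real.sin θ, Real.cos θ], by
  rw [Matrix.det_fin_two]
  simp
  nlinarith [Real.sin_sq_add_cos_sq θ]⟩

theorem rot_mem (θ : ℝ) : rot θ ∈ SO2 := by
  change (!![Real.cos θ, Real.sin θ; -Real.sin θ, Real.cos θ] : M2) *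
    (!![Real.cos θ, Real.sin θ; -Real.sin θ, Real.cos θ] : M2)ᵀ = 1
  ext i j
  fin_cases i <;> fin_cases j <;> simp [Matrix.mul_apply, Fin.sum_univ_two] <;>
    nlinarith [Real.sin_sq_add_cos_sq θ]

theorem cP_rot (θ : ℝ) : conj (cP (rot θ : M2)) = Complex.exp (θ * Complex.I) := by
  rw [Complex.exp_mul_I, ← Complex.ofReal_cos, ← Complex.ofReal_sin]
  apply Complex.ext
  · simp [cP, rot, -Complex.ofReal_cos, -Complex.ofReal_sin]
  · simp [cP, rot, -Complex.ofReal_cos, -Complex.ofReal_sin]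
    try ring

theorem charK_injective {a b : ℤ × ℤ} (h : ∀ k : KK, charK k a = charK k b) : a = b := by
  have key : ∀ m n : ℤ, (∀ θ : ℝ, Complex.exp (θ * Complex.I) ^ (2 * m) =
      Complex.exp (θ * Complex.I) ^ (2 * n)) → m = n := by
    intro m n hmn
    by_contra hne
    have hne' : ((m - n : ℤ) : ℂ) ≠ 0 := by
      have : m - n ≠ 0 := sub_ne_zero.2 hne
      exact_mod_cast this
    have h1 := hmn (Real.pi / (2 * ((m - n : ℤ) : ℝ)))
    have h2 : Complex.exp (((Real.pi / (2 * ((m - n : ℤ) : ℝ)) : ℝ) : ℂ) * Complex.I) ^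
        (2 * (m - n)) = 1 := by
      rw [mul_sub, zpow_sub₀ (Complex.exp_ne_zero _), h1, div_self]
      exact zpow_ne_zero _ (Complex.exp_ne_zero _)
    rw [← Complex.exp_int_mul] at h2
    have h3 : ((2 * (m - n) : ℤ) : ℂ) * (((Real.pi / (2 * ((m - n : ℤ) : ℝ)) : ℝ) : ℂ) *
        Complex.I) = Real.pi * Complex.I := by
      push_cast at hne' ⊢
      field_simp
    rw [h3, Complex.exp_pi_mul_I] at h2
    norm_num at h2
  have h1 : a.1 = b.1 := by
    apply key
    intro θ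
    have := h ⟨(rot θ, 1), rot_mem θ, SO2.one_mem⟩
    rw [charK, charK] at this
    change conj (cP (rot θ : M2)) ^ _ * conj (cP (1 : M2)) ^ _ =
      conj (cP (rot θ : M2)) ^ _ * conj (cP (1 : M2)) ^ _ at this
    rw [cP_rot, cP_one, map_one, _root_.one_zpow, _root_.one_zpow, mul_one, mul_one] at this
    exact this
  have h2 : a.2 = b.2 := by
    apply key
    intro θ
    have := h ⟨(1, rot θ), SO2.one_mem, rot_mem θ⟩
    rw [charK, charK] at this
    change conj (cP (1 : M2)) ^ _ * conj (cP (rot θ : M2)) ^ _ =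
      conj (cP (1 : M2)) ^ _ * conj (cP (rot θ : M2)) ^ _ at this
    rw [cP_rot, cP_one, map_one, _root_.one_zpow, _root_.one_zpow, one_mul, one_mul] at this
    exact this
  exact Prod.ext h1 h2

theorem repr_kap (k : KK) (v : VV) (a : ℤ × ℤ) : bV.repr (kap k v) a =
    charK k a * bV.repr v a := by
  classical
  induction v using VV_induction with
  | h0 => simp
  | hadd u w hu hw => rw [map_add, map_add, map_add, Finsupp.add_apply, Finsupp.add_apply, hu, hw]
                      ring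
  | hb b r =>
    rw [map_smul, kap_bV, map_smul, map_smul, map_smul, Module.Basis.repr_self]
    simp only [Finsupp.smul_apply, smul_eq_mul, Finsupp.single_apply]
    by_cases hab : b = a
    · subst hab; simp; ring
    · simp [hab]

theorem admissible_VV (χ : GG → ℂ) : ∃ S : Submodule ℂ VV, FiniteDimensional ℂ S ∧
    ∀ v : VV, (∀ k ∈ KK, kapG k v = χ k • v) → v ∈ S := by
  classical
  set S : Set (ℤ × ℤ) := {a | ∀ k : KK, charK k a = χ k} with hS
  have hsub : S.Subsingleton := by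
    intro a ha b hb
    exact charK_injective fun k => (ha k).trans (hb k).symm
  refine ⟨Submodule.span ℂ (bV '' S), FiniteDimensional.span_of_finite ℂ (hsub.finite.image _),
    fun v hv => ?_⟩
  have h1 : ∀ a, bV.repr v a ≠ 0 → a ∈ S := by
    intro a ha k
    have h2 := repr_kap k v a
    have h3 : kap k v = χ k • v := hv k k.2
    rw [h3, map_smul, Finsupp.smul_apply, smul_eq_mul] at h2
    exact (mul_right_cancel₀ ha h2).symm
  rw [Module.Basis.mem_span_image]
  intro a ha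
  exact h1 a (Finsupp.mem_support_iff.1 ha)

theorem isHarishChandraModule : IsHarishChandraModule dpi kapG where
  isGKModule := isGKModule
  finitelyGenerated := finitelyGenerated_VV
  admissible := admissible_VV

end Pool.Agent.Lib.MP_6a3a89_al
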