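import Mathlib

set_option autoImplicit false

/-!
# Uniqueness for an infinite system of linear differential equations
-/

namespace Pool.Agent.Lib.MP_6a3a89_al

/-- The bound in the `k`-th step. -/
noncomputable def bnd (C : ℝ) (k μ : ℕ) (t : ℝ) : ℝ :=
  C * 4 ^ (μ + k) * 2 ^ k * ((μ + k).choose k : ℝ) * t ^ k

theorem bnd_mono {C : ℝ} (hC : 0 ≤ C) (k : ℕ) {μ ν : ℕ} (h : μ ≤ ν) {t : ℝ} (ht : 0 ≤ t) :
    bnd C k μ t ≤ bnd C k ν t := by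
  unfold bnd
  have h1 : (4 : ℝ) ^ (μ + k) ≤ 4 ^ (ν + k) := pow_le_pow_right₀ (by norm_num) (by omega)
  have h2 : (((μ + k).choose k : ℕ) : ℝ) ≤ ((ν + k).choose k : ℕ) := by
    exact_mod_cast Nat.choose_le_choose k (by omega)
  gcongr

theorem hasDerivAt_bnd (C : ℝ) (k μ : ℕ) (t : ℝ) :
    HasDerivAt (bnd C (k + 1) μ)
      (C * 4 ^ (μ + (k + 1)) * 2 ^ (k + 1) * ((μ + (k + 1)).choose (k + 1) : ℝ) *
        (((k + 1 : ℕ) : ℝ) * t ^ k)) t := by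
  have h := (hasDerivAt_pow (k + 1) t).const_mul
    (C * 4 ^ (μ + (k + 1)) * 2 ^ (k + 1) * ((μ + (k + 1)).choose (k + 1) : ℝ))
  exact h

theorem bnd_step {C : ℝ} (hC : 0 ≤ C) (k μ : ℕ) {t : ℝ} (ht : 0 ≤ t) :
    (μ : ℝ) * (2 * bnd C k (μ + 1) t) ≤
      C * 4 ^ (μ + (k + 1)) * 2 ^ (k + 1) * ((μ + (k + 1)).choose (k + 1) : ℝ) *
        (((k + 1 : ℕ) : ℝ) * t ^ k) := by
  unfold bnd
  have h1 : (μ + (k + 1)).choose (k + 1) * (k + 1) = (μ + (k + 1)).choose k * (μ + 1) := by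
    rw [Nat.choose_succ_right_eq]
    congr 1
    omega
  have h2 : (((μ + (k + 1)).choose (k + 1) : ℕ) : ℝ) * ((k + 1 : ℕ) : ℝ) =
      (((μ + (k + 1)).choose k : ℕ) : ℝ) * ((μ : ℝ) + 1) := by
    exact_mod_cast h1
  have e : μ + 1 + k = μ + (k + 1) := by ring
  rw [e]
  have e2 : C * 4 ^ (μ + (k + 1)) * 2 ^ (k + 1) * ((μ + (k + 1)).choose (k + 1) : ℝ) *
        (((k + 1 : ℕ) : ℝ) * t ^ k) = C * 4 ^ (μ + (k + 1)) * 2 ^ (k + 1) * t ^ k *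
        ((((μ + (k + 1)).choose (k + 1) : ℕ) : ℝ) * ((k + 1 : ℕ) : ℝ)) := by ring
  rw [e2, h2]
  have h3 : 0 ≤ C * 4 ^ (μ + (k + 1)) * 2 ^ (k + 1) * t ^ k *
      (((μ + (k + 1)).choose k : ℕ) : ℝ) := by positivity
  have e3 : (μ : ℝ) * (2 * (C * 4 ^ (μ + (k + 1)) * 2 ^ k * ((μ + (k + 1)).choose k : ℝ) *
      t ^ k)) = C * 4 ^ (μ + (k + 1)) * 2 ^ (k + 1) * t ^ k *
      (((μ + (k + 1)).choose k : ℕ) : ℝ) * μ := by ring
  rw [e3]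
  nlinarith

theorem natAbs_add_one_le (m : ℤ) : (m + 1).natAbs ≤ m.natAbs + 1 := by omega
theorem natAbs_sub_one_le (m : ℤ) : (m - 1).natAbs ≤ m.natAbs + 1 := by omega

theorem ode_bound {f : ℤ → ℝ → ℂ} {C T : ℝ} (hC : 0 ≤ C)
    (h0 : ∀ m, f m 0 = 0)
    (hd : ∀ m t, HasDerivAt (f m) ((m : ℂ) * (f (m + 1) t - f (m - 1) t)) t)
    (hb : ∀ m, ∀ t ∈ Set.Icc (0 : ℝ) T, ‖f m t‖ ≤ C * 4 ^ m.natAbs) (k : ℕ) :
    ∀ m, ∀ t ∈ Set.Icc (0 : ℝ) T, ‖f m t‖ ≤ bnd C k m.natAbs t := by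
  induction k with
  | zero =>
    intro m t ht
    have := hb m t ht
    simpa [bnd] using this
  | succ k ih =>
    intro m t ht
    have hcont : ContinuousOn (f m) (Set.Icc 0 T) :=
      fun x _ => (hd m x).continuousAt.continuousWithinAt
    refine image_norm_le_of_norm_deriv_right_le_deriv_boundary
      (f' := fun x => (m : ℂ) * (f (m + 1) x - f (m - 1) x)) hcont
      (fun x _ => (hd m x).hasDerivWithinAt) ?_ (fun x => hasDerivAt_bnd C k m.natAbs x) ?_ ht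
    · rw [h0, norm_zero]
      simp [bnd]
    · intro x hx
      have hx' : x ∈ Set.Icc (0 : ℝ) T := ⟨hx.1, hx.2.le⟩
      have a1 := (ih (m + 1) x hx').trans (bnd_mono hC k (natAbs_add_one_le m) hx.1)
      have a2 := (ih (m - 1) x hx').trans (bnd_mono hC k (natAbs_sub_one_le m) hx.1)
      refine le_trans ?_ (bnd_step hC k m.natAbs hx.1)
      rw [norm_mul]
      have hm : ‖(m : ℂ)‖ = (m.natAbs : ℝ) := by
        rw [Complex.norm_intCast, Nat.cast_natAbs, Int.cast_abs]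
      rw [hm]
      refine mul_le_mul_of_nonneg_left ?_ (Nat.cast_nonneg _)
      refine (norm_sub_le _ _).trans ?_
      linarith

theorem ode_zero {f : ℤ → ℝ → ℂ} {C T : ℝ} (hC : 0 ≤ C)
    (h0 : ∀ m, f m 0 = 0)
    (hd : ∀ m t, HasDerivAt (f m) ((m : ℂ) * (f (m + 1) t - f (m - 1) t)) t)
    (hb : ∀ m, ∀ t ∈ Set.Icc (0 : ℝ) T, ‖f m t‖ ≤ C * 4 ^ m.natAbs)
    (hT : (1 / 32 : ℝ) ≤ T) (m : ℤ) : f m (1 / 32) = 0 := by
  have hmem : (1 / 32 : ℝ) ∈ Set.Icc (0 : ℝ) T := ⟨by norm_num, hT⟩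
  have h1 : ∀ k : ℕ, ‖f m (1 / 32)‖ ≤ (C * 8 ^ m.natAbs) * (1 / 2) ^ k := by
    intro k
    refine (ode_bound hC h0 hd hb k m _ hmem).trans ?_
    unfold bnd
    have h2 : (((m.natAbs + k).choose k : ℕ) : ℝ) ≤ 2 ^ (m.natAbs + k) := by
      exact_mod_cast Nat.choose_le_two_pow _ _
    calc C * 4 ^ (m.natAbs + k) * 2 ^ k * ((m.natAbs + k).choose k : ℝ) * (1 / 32) ^ k
        ≤ C * 4 ^ (m.natAbs + k) * 2 ^ k * 2 ^ (m.natAbs + k) * (1 / 32) ^ k := by gcongr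
      _ = (C * 8 ^ m.natAbs) * (1 / 2) ^ k := by
        rw [pow_add, pow_add, show (8 : ℝ) = 4 * 2 by norm_num,
          show (1 / 2 : ℝ) = 4 * 2 * 2 * (1 / 32) by norm_num, mul_pow, mul_pow, mul_pow, mul_pow]
        ring
  have h2 : Filter.Tendsto (fun k : ℕ => (C * 8 ^ m.natAbs) * (1 / 2 : ℝ) ^ k) Filter.atTop
      (nhds ((C * 8 ^ m.natAbs) * 0)) :=
    (tendsto_pow_atTop_nhds_zero_of_lt_one (by norm_num) (by norm_num)).const_mul _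
  rw [mul_zero] at h2
  have h3 : ‖f m (1 / 32)‖ ≤ 0 := ge_of_tendsto' h2 h1
  exact norm_le_zero_iff.1 h3

end Pool.Agent.Lib.MP_6a3a89_al
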