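import Pool.Agent.Lib.MP_6a3a89_al.Bounds
import Pool.Agent.Lib.MP_6a3a89_al.ODE

set_option autoImplicit false

/-!
# The Sobolev norm of order two of the sup norm is not `G`-continuous
-/

namespace Pool.Agent.Lib.MP_6a3a89_al

open Matrix ComplexConjugate Polynomial Finset

/-- The functional `v ↦ ∑ (1 + a n²) v(m,n)`. -/
noncomputable def fA (a : ℝ) : VV →ₗ[ℂ] ℂ :=
  bV.constr ℂ fun p => ((1 + a * (p.2 : ℝ) ^ 2 : ℝ) : ℂ)
/-- The functional `v ↦ a ∑ m² v(m,n)`. -/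
noncomputable def fB (a : ℝ) : VV →ₗ[ℂ] ℂ :=
  bV.constr ℂ fun p => ((a * (p.1 : ℝ) ^ 2 : ℝ) : ℂ)

theorem fA_bV (a : ℝ) (p : ℤ × ℤ) : fA a (bV p) = ((1 + a * (p.2 : ℝ) ^ 2 : ℝ) : ℂ) := by
  rw [fA, Module.Basis.constr_basis]
theorem fB_bV (a : ℝ) (p : ℤ × ℤ) : fB a (bV p) = ((a * (p.1 : ℝ) ^ 2 : ℝ) : ℂ) := by
  rw [fB, Module.Basis.constr_basis]

theorem ev_one_bV (p : ℤ × ℤ) : ev 1 (bV p) = 1 := by
  rw [ev_apply, iota_bV_apply]; simp

theorem fA_add_fB (a : ℝ) (v : VV) : fA a v + fB a v = ev 1 (Dop a v) := by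
  induction v using VV_induction with
  | h0 => simp
  | hadd u w hu hw => simp only [map_add, ← hu, ← hw]; ring
  | hb p r =>
    simp only [map_smul, fA_bV, fB_bV, Dop, wt_bV, ev_one_bV, smul_eq_mul]
    push_cast
    ring

theorem fB_eq (a : ℝ) (v : VV) : fB a v = a * ev 1 (d1 (d1 v)) := by
  induction v using VV_induction with
  | h0 => simp
  | hadd u w hu hw => simp only [map_add, hu, hw]; ring
  | hb p r =>
    rw [Derivation.map_smul, d1_bV, Derivation.map_smul, Derivation.map_smul, d1_bV]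
    simp only [map_smul, fB_bV, ev_one_bV, smul_eq_mul]
    push_cast
    ring

/-- The element `(diag(1,-1), 0)` of the Lie algebra. -/
def XX : LG := (Hs, 0)

theorem dpi_XX (m n : ℤ) : dpi XX (bV (m, n)) =
    (m : ℂ) • (bV (m + 1, n) - bV (m - 1, n)) := by
  rw [dpi_bV]
  change (m : ℂ) • (u1 (Hs : M2) * bV (m, n)) + (n : ℂ) • (u2 ((0 : sl) : M2) * bV (m, n)) = _
  rw [u1_Hs, u2_zero, zero_mul, smul_zero, add_zero, add_mul, neg_mul, bV_mul, bV_mul]
  congr 1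
  rw [Prod.mk_add_mk, Prod.mk_add_mk, zero_add, add_comm (-1) m, add_comm 1 m, sub_eq_add_neg m 1]
  abel

theorem exp_add_smul (X : M2) (s t : ℝ) :
    NormedSpace.exp ((s + t) • X) = NormedSpace.exp (s • X) * NormedSpace.exp (t • X) := by
  rw [add_smul]
  exact Matrix.exp_add_of_commute _ _ (((Commute.refl X).smul_left s).smul_right t)

theorem expSL_add (X : sl) (s t : ℝ) : expSL ((s + t) • X) = expSL (s • X) * expSL (t • X) := by
  apply Subtype.ext
  rw [coeMul]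
  exact exp_add_smul X s t

theorem expG_add (X : LG) (s t : ℝ) : expG ((s + t) • X) = expG (s • X) * expG (t • X) :=
  Prod.ext (expSL_add X.1 s t) (expSL_add X.2 s t)

theorem continuous_expSL (X : sl) : Continuous fun t : ℝ => expSL (t • X) := by
  apply continuous_induced_rng.2
  apply continuous_matrix
  intro i j
  exact continuous_iff_continuousAt.2 fun t => (hasDerivAt_exp_entry (X : M2) t i j).continuousAt

theorem continuous_expG (X : LG) : Continuous fun t : ℝ => expG (t • X) :=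
  (continuous_expSL X.1).prodMk (continuous_expSL X.2)

theorem sq_le_four_pow (m : ℕ) : (m : ℝ) ^ 2 ≤ 4 ^ m := by
  have h : (m : ℝ) ≤ 2 ^ m := by exact_mod_cast (Nat.lt_two_pow_self (n := m)).le
  calc (m : ℝ) ^ 2 ≤ (2 ^ m) ^ 2 := by gcongr
    _ = 4 ^ m := by rw [← pow_mul, mul_comm, pow_mul]; norm_num

theorem not_isGContinuous {a : ℝ} (ha : 0 < a) :
    ¬ IsGContinuous dpi kapG (fun v => ‖iota (Dop a v)‖) := by
  rintro ⟨E, iE1, iE2, ι, ρ, iE3, hnorm', hdense, hrep, -, hderiv, -⟩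
  have hcont := hrep.continuous
  have hnorm : ∀ v, ‖ι v‖ = ‖iota (Dop a v)‖ := hnorm'
  -- the functional
  let L : VV →ₗ[ℂ] ℂ := (ev 1).toLinearMap ∘ₗ Dop a
  have hLv : ∀ v, L v = ev 1 (Dop a v) := fun v => rfl
  have hL : ∀ v, ‖L v‖ ≤ 1 * ‖ι v‖ := by
    intro v
    rw [one_mul, hnorm v, hLv]
    exact (iota (Dop a v)).norm_coe_le_norm 1
  let l : E →L[ℂ] ℂ := L.extendOfNorm ι
  have hl : ∀ v, l (ι v) = ev 1 (Dop a v) := fun v =>
    LinearMap.extendOfNorm_eq hdense ⟨1, hL⟩ v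
  -- strong continuity
  have hcont2 : ∀ x : E, Continuous fun t : ℝ => ρ (expG (t • XX)) x := fun x =>
    hcont.comp ((continuous_expG XX).prodMk continuous_const)
  -- derivative
  have hd : ∀ (v : VV) (t : ℝ), HasDerivAt (fun u : ℝ => l (ρ (expG (u • XX)) (ι v)))
      (l (ρ (expG (t • XX)) (ι (dpi XX v)))) t := by
    intro v t
    have h1 : HasDerivAt (fun u : ℝ => ρ (expG ((u - t) • XX)) (ι v)) (ι (dpi XX v)) t := by
      have h0 := hderiv XX v
      rw [← sub_self t] at h0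
      exact HasDerivAt.comp_sub_const (f := fun u : ℝ => ρ (expG (u • XX)) (ι v)) t t h0
    have h2 := ((l.comp (ρ (expG (t • XX)))).restrictScalars ℝ).hasFDerivAt.comp_hasDerivAt t h1
    have h3 : (fun u : ℝ => l (ρ (expG (u • XX)) (ι v))) =
        ((l.comp (ρ (expG (t • XX)))).restrictScalars ℝ) ∘
          (fun u : ℝ => ρ (expG ((u - t) • XX)) (ι v)) := by
      funext u
      have h4 : expG (u • XX) = expG (t • XX) * expG ((u - t) • XX) := by
        rw [← expG_add, add_sub_cancel]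
      rw [h4, hrep.map_mul]
      rfl
    rw [h3]
    exact h2
  -- boundedness
  obtain ⟨C₁, hC₁⟩ : ∃ C', ∀ i : Set.Icc (0 : ℝ) 1, ‖ρ (expG ((i : ℝ) • XX))‖ ≤ C' := by
    apply banach_steinhaus
    intro x
    obtain ⟨C, hC⟩ := isCompact_Icc.exists_bound_of_continuousOn
      (hcont2 x).continuousOn (s := Set.Icc (0 : ℝ) 1)
    exact ⟨C, fun i => hC i i.2⟩
  have hC₁0 : 0 ≤ C₁ := (norm_nonneg _).trans (hC₁ ⟨0, by simp⟩)
  -- the system of differential equations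
  have key : ∀ m n : ℤ, l (ρ (expG ((1 / 32 : ℝ) • XX)) (ι (bV (m, n)))) =
      fA a (bV (m, n)) + Complex.exp (4 * ((1 / 32 : ℝ) : ℂ)) * fB a (bV (m, n)) := by
    intro m n
    let f : ℤ → ℝ → ℂ := fun m t => l (ρ (expG (t • XX)) (ι (bV (m, n)))) -
      fA a (bV (m, n)) - Complex.exp (4 * (t : ℂ)) * fB a (bV (m, n))
    have hf0 : ∀ m, f m 0 = 0 := by
      intro m
      change l (ρ (expG ((0 : ℝ) • XX)) (ι (bV (m, n)))) -
        fA a (bV (m, n)) - Complex.exp (4 * ((0 : ℝ) : ℂ)) * fB a (bV (m, n)) = 0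
      rw [expG_zero, hrep.map_one]
      rw [hl, ← fA_add_fB, Complex.ofReal_zero, mul_zero, Complex.exp_zero]
      ring
    have hfd : ∀ m t, HasDerivAt (f m) ((m : ℂ) * (f (m + 1) t - f (m - 1) t)) t := by
      intro m t
      have h1 := (hd (bV (m, n)) t).sub_const (fA a (bV (m, n)))
      have h2 : HasDerivAt (fun t : ℝ => Complex.exp (4 * (t : ℂ))) (Complex.exp (4 * (t : ℂ)) * 4)
          t := by
        have h3 : HasDerivAt (fun t : ℝ => 4 * (t : ℂ)) (4 * 1) t :=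
          (hasDerivAt_id t).ofReal_comp.const_mul 4
        rw [mul_one] at h3
        exact (Complex.hasDerivAt_exp (4 * (t : ℂ))).comp t h3
      have h4 := h1.sub (h2.mul_const (fB a (bV (m, n))))
      refine h4.congr_deriv ?_
      rw [dpi_XX]
      simp only [f, map_smul, map_sub, smul_eq_mul, fA_bV, fB_bV]
      push_cast
      ring
    have hfb : ∀ m, ∀ t ∈ Set.Icc (0 : ℝ) 1, ‖f m t‖ ≤
        ((‖l‖ * C₁ + 1 + Real.exp 4) * (1 + a + a * (n : ℝ) ^ 2)) * 4 ^ m.natAbs := by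
      intro m t ht
      have e1 : ‖ι (bV (m, n))‖ ≤ 1 + a * ((m : ℝ) ^ 2 + (n : ℝ) ^ 2) := by
        rw [hnorm, Dop, wt_bV, map_smul, norm_smul, Complex.norm_real, Real.norm_eq_abs,
          abs_of_nonneg (by positivity)]
        have : ‖iota (bV (m, n))‖ ≤ 1 := by
          rw [ContinuousMap.norm_le _ zero_le_one]
          intro x
          rw [iota_bV_apply, Circle.norm_coe]
        calc (1 + a * ((m : ℝ) ^ 2 + (n : ℝ) ^ 2)) * ‖iota (bV (m, n))‖ ≤
            (1 + a * ((m : ℝ) ^ 2 + (n : ℝ) ^ 2)) * 1 := by gcongr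
          _ = _ := mul_one _
      have e2 : ‖l (ρ (expG (t • XX)) (ι (bV (m, n))))‖ ≤
          ‖l‖ * (C₁ * (1 + a * ((m : ℝ) ^ 2 + (n : ℝ) ^ 2))) := by
        refine (l.le_opNorm _).trans ?_
        refine mul_le_mul_of_nonneg_left ?_ (norm_nonneg _)
        refine ((ρ (expG (t • XX))).le_opNorm _).trans ?_
        exact mul_le_mul (hC₁ ⟨t, ht⟩) e1 (norm_nonneg _) hC₁0
      have e3 : ‖fA a (bV (m, n))‖ = 1 + a * (n : ℝ) ^ 2 := by
        rw [fA_bV, Complex.norm_real, Real.norm_eq_abs, abs_of_nonneg (by positivity)]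
      have e4 : ‖Complex.exp (4 * (t : ℂ)) * fB a (bV (m, n))‖ ≤
          Real.exp 4 * (a * (m : ℝ) ^ 2) := by
        rw [norm_mul, fB_bV, Complex.norm_real, Real.norm_eq_abs, abs_of_nonneg (by positivity),
          Complex.norm_exp]
        have : (4 * (t : ℂ)).re = 4 * t := by simp
        rw [this]
        have h5 : Real.exp (4 * t) ≤ Real.exp 4 := Real.exp_le_exp.2 (by linarith [ht.2])
        gcongr
      have e5 : ‖f m t‖ ≤ ‖l‖ * (C₁ * (1 + a * ((m : ℝ) ^ 2 + (n : ℝ) ^ 2))) +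
          (1 + a * (n : ℝ) ^ 2) + Real.exp 4 * (a * (m : ℝ) ^ 2) := by
        refine (norm_sub_le _ _).trans (add_le_add ((norm_sub_le _ _).trans ?_) e4)
        rw [e3]
        linarith
      refine e5.trans ?_
      have e6 : (m : ℝ) ^ 2 ≤ 4 ^ m.natAbs := by
        have := sq_le_four_pow m.natAbs
        rwa [Nat.cast_natAbs, Int.cast_abs, sq_abs] at this
      have e7 : (1 : ℝ) ≤ 4 ^ m.natAbs := one_le_pow₀ (by norm_num)
      set M : ℝ := 4 ^ m.natAbs
      have e8 : 1 + a * ((m : ℝ) ^ 2 + (n : ℝ) ^ 2) ≤ (1 + a + a * (n : ℝ) ^ 2) * M := by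
        have h1 : a * (m : ℝ) ^ 2 ≤ a * M := mul_le_mul_of_nonneg_left e6 ha.le
        have h2 : (1 + a * (n : ℝ) ^ 2) * 1 ≤ (1 + a * (n : ℝ) ^ 2) * M :=
          mul_le_mul_of_nonneg_left e7 (by positivity)
        nlinarith
      have hpos : 0 ≤ Real.exp 4 := (Real.exp_pos 4).le
      have hpos2 : 0 ≤ ‖l‖ * C₁ := mul_nonneg (norm_nonneg _) hC₁0
      have hm2 : 0 ≤ a * (m : ℝ) ^ 2 := by positivity
      have hn2 : 0 ≤ a * (n : ℝ) ^ 2 := by positivity
      calc ‖l‖ * (C₁ * (1 + a * ((m : ℝ) ^ 2 + (n : ℝ) ^ 2))) +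
          (1 + a * (n : ℝ) ^ 2) + Real.exp 4 * (a * (m : ℝ) ^ 2)
          ≤ ‖l‖ * (C₁ * (1 + a * ((m : ℝ) ^ 2 + (n : ℝ) ^ 2))) +
          (1 + a * ((m : ℝ) ^ 2 + (n : ℝ) ^ 2)) +
            Real.exp 4 * (1 + a * ((m : ℝ) ^ 2 + (n : ℝ) ^ 2)) := by
            have : Real.exp 4 * (a * (m : ℝ) ^ 2) ≤
              Real.exp 4 * (1 + a * ((m : ℝ) ^ 2 + (n : ℝ) ^ 2)) :=
              mul_le_mul_of_nonneg_left (by linarith) hpos
            linarith
        _ = (‖l‖ * C₁ + 1 + Real.exp 4) * (1 + a * ((m : ℝ) ^ 2 + (n : ℝ) ^ 2)) := by ring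
        _ ≤ (‖l‖ * C₁ + 1 + Real.exp 4) * ((1 + a + a * (n : ℝ) ^ 2) * M) :=
            mul_le_mul_of_nonneg_left e8 (by linarith)
        _ = _ := by ring
    have hz := ode_zero (T := 1) (by positivity) hf0 hfd hfb (by norm_num) m
    have hz' : l (ρ (expG ((1 / 32 : ℝ) • XX)) (ι (bV (m, n)))) -
      fA a (bV (m, n)) - Complex.exp (4 * ((1 / 32 : ℝ) : ℂ)) * fB a (bV (m, n)) = 0 := hz
    linear_combination hz'
  have key2 : ∀ v : VV, l (ρ (expG ((1 / 32 : ℝ) • XX)) (ι v)) =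
      fA a v + Complex.exp (4 * ((1 / 32 : ℝ) : ℂ)) * fB a v := by
    intro v
    induction v using VV_induction with
    | h0 => simp
    | hadd u w hu hw => simp only [map_add, hu, hw]; ring
    | hb p r =>
      have := key p.1 p.2
      simp only [map_smul, smul_eq_mul]
      rw [show (bV p : VV) = bV (p.1, p.2) from rfl, this]
      ring
  set g : GG := expG ((1 / 32 : ℝ) • XX)
  have key3 : ∀ v : VV, (Real.exp (1 / 8) - 1) * ‖fB a v‖ ≤ ‖l‖ * (‖ρ g‖ + 1) * ‖ι v‖ := by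
    intro v
    have h1 : ((Real.exp (1 / 8) - 1 : ℝ) : ℂ) * fB a v = l (ρ g (ι v) - ι v) := by
      rw [map_sub, key2, hl, ← fA_add_fB]
      have : (4 * ((1 / 32 : ℝ) : ℂ)) = ((1 / 8 : ℝ) : ℂ) := by push_cast; norm_num
      rw [this]
      push_cast
      ring
    have h2 : 0 < Real.exp (1 / 8) - 1 := by
      have := Real.add_one_lt_exp (x := 1 / 8) (by norm_num)
      linarith
    have h3 : (Real.exp (1 / 8) - 1) * ‖fB a v‖ = ‖l (ρ g (ι v) - ι v)‖ := by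
      rw [← h1, norm_mul, Complex.norm_real, Real.norm_eq_abs, abs_of_pos h2]
    rw [h3]
    calc ‖l (ρ g (ι v) - ι v)‖ ≤ ‖l‖ * ‖ρ g (ι v) - ι v‖ := l.le_opNorm _
      _ ≤ ‖l‖ * (‖ρ g‖ * ‖ι v‖ + ‖ι v‖) := by
        refine mul_le_mul_of_nonneg_left ?_ (norm_nonneg _)
        refine (norm_sub_le _ _).trans ?_
        linarith [(ρ g).le_opNorm (ι v)]
      _ = _ := by ring
  have h8 : 0 < Real.exp (1 / 8) - 1 := by
    have := Real.add_one_lt_exp (x := 1 / 8) (by norm_num)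
    linarith
  -- the test functions
  have key4 : ∀ N : ℕ, (∑ k ∈ range N, (1 / ((k : ℝ) + 1))) ≤
      ‖l‖ * (‖ρ g‖ + 1) * (4 + 12 * a) / ((Real.exp (1 / 8) - 1) * a) := by
    intro N
    rw [le_div_iff₀ (by positivity)]
    have h1 := key3 (fP (PN N))
    rw [fB_eq, ev_one_d1_d1_fP, norm_mul, Complex.norm_real, Complex.norm_real,
      Real.norm_eq_abs, Real.norm_eq_abs, abs_of_pos ha,
      abs_of_nonneg (sum_nonneg fun k _ => by positivity), hnorm] at h1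
    have h2 : ‖l‖ * (‖ρ g‖ + 1) * ‖iota (Dop a (fP (PN N)))‖ ≤
        ‖l‖ * (‖ρ g‖ + 1) * (4 + 12 * a) :=
      mul_le_mul_of_nonneg_left (norm_Dop_fP ha.le N) (by positivity)
    calc (∑ k ∈ range N, (1 / ((k : ℝ) + 1))) * ((Real.exp (1 / 8) - 1) * a)
        = (Real.exp (1 / 8) - 1) * (a * ∑ k ∈ range N, (1 / ((k : ℝ) + 1))) := by ring
      _ ≤ _ := h1.trans h2
  obtain ⟨N, hN⟩ := (Real.tendsto_sum_range_one_div_nat_succ_atTop.eventually_gt_atTop
    (‖l‖ * (‖ρ g‖ + 1) * (4 + 12 * a) / ((Real.exp (1 / 8) - 1) * a))).exists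
  exact absurd (key4 N) (not_le.2 hN)

end Pool.Agent.Lib.MP_6a3a89_al
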