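import Pool.Agent.Lib.MP_6a3a89_al.HCModule

set_option autoImplicit false

/-!
# The Möbius action on the torus and on continuous functions
-/

namespace Pool.Agent.Lib.MP_6a3a89_al

open Matrix ComplexConjugate

/-- The torus. -/
abbrev TT : Type := Circle × Circle

/-- The Banach algebra of continuous functions on the torus. -/
abbrev EE : Type := C(TT, ℂ)

theorem det_PQ (g : SL) :
    cP (g : M2) * conj (cP (g : M2)) - cQ (g : M2) * conj (cQ (g : M2)) = 1 := by
  rw [normSq_det, g.2, Complex.ofReal_one]

/-- The denominator of the Möbius action. -/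
noncomputable def den (g : SL) (ζ : ℂ) : ℂ := conj (cQ (g : M2)) * ζ + conj (cP (g : M2))

/-- The numerator of the Möbius action. -/
noncomputable def num (g : SL) (ζ : ℂ) : ℂ := cP (g : M2) * ζ + cQ (g : M2)

theorem cont_coe : Continuous (fun z : Circle => (z : ℂ)) := continuous_induced_dom

theorem circle_mul_conj (ζ : Circle) : (ζ : ℂ) * conj (ζ : ℂ) = 1 := by
  rw [Complex.mul_conj, Circle.normSq_coe, Complex.ofReal_one]

theorem num_eq (g : SL) (ζ : Circle) : num g ζ = ζ * conj (den g ζ) := by
  rw [num, den, map_add, map_mul, Complex.conj_conj, Complex.conj_conj]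
  linear_combination (-cQ (g : M2)) * circle_mul_conj ζ

theorem den_ne_zero (g : SL) (ζ : Circle) : den g ζ ≠ 0 := by
  intro h
  have h1 : num g ζ = 0 := by rw [num_eq, h, map_zero, mul_zero]
  have h2 : conj (cP (g : M2)) * num g ζ - cQ (g : M2) * den g ζ = ζ := by
    rw [num, den]
    linear_combination (ζ : ℂ) * det_PQ g
  rw [h, h1, mul_zero, mul_zero, sub_zero] at h2
  exact Circle.coe_ne_zero ζ h2.symm

/-- The Möbius action of `SL(2,ℝ)` on the circle. -/
noncomputable def mob (g : SL) (ζ : Circle) : Circle :=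
  ζ * Circle.ofConjDivSelf (den g ζ) (den_ne_zero g ζ)

theorem coe_mob (g : SL) (ζ : Circle) : (mob g ζ : ℂ) = num g ζ / den g ζ := by
  rw [mob, Circle.coe_mul, num_eq, mul_div_assoc]
  rfl

theorem num_mul (g h : SL) (ζ : ℂ) :
    num (g * h) ζ = cP (g : M2) * num h ζ + cQ (g : M2) * den h ζ := by
  rw [num, num, den, coeMul, cP_mul, cQ_mul]; ring

theorem den_mul (g h : SL) (ζ : ℂ) :
    den (g * h) ζ = conj (cQ (g : M2)) * num h ζ + conj (cP (g : M2)) * den h ζ := by
  rw [num, den, den, coeMul, cP_mul, cQ_mul]
  simp only [map_add, map_mul, Complex.conj_conj]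
  ring

theorem num_mob (g h : SL) (ζ : Circle) :
    num g (mob h ζ) = cP (g : M2) * (num h ζ / den h ζ) + cQ (g : M2) := by
  rw [← coe_mob]; rfl

theorem den_mob (g h : SL) (ζ : Circle) :
    den g (mob h ζ) = conj (cQ (g : M2)) * (num h ζ / den h ζ) + conj (cP (g : M2)) := by
  rw [← coe_mob]; rfl

theorem mob_mul (g h : SL) (ζ : Circle) : mob (g * h) ζ = mob g (mob h ζ) := by
  apply Circle.ext
  have hd := den_ne_zero h ζ
  have e1 : cP (g : M2) * num h ζ + cQ (g : M2) * den h ζ = num g (mob h ζ) * den h ζ := by
    rw [num_mob, add_mul, mul_assoc, div_mul_cancel₀ _ hd]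
  have e2 : conj (cQ (g : M2)) * num h ζ + conj (cP (g : M2)) * den h ζ =
      den g (mob h ζ) * den h ζ := by
    rw [den_mob, add_mul, mul_assoc, div_mul_cancel₀ _ hd]
  rw [coe_mob, coe_mob, num_mul, den_mul, e1, e2, mul_div_mul_right _ _ hd]

theorem mob_one (ζ : Circle) : mob 1 ζ = ζ := by
  apply Circle.ext
  rw [coe_mob, num, den, coeOne, cP_one, cQ_one, map_one, map_zero]
  simp

theorem continuous_mob : Continuous fun x : SL × Circle => mob x.1 x.2 := by
  have hP : Continuous fun x : SL × Circle => cP ((x.1 : SL) : M2) :=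
    continuous_cP.comp continuous_fst
  have hQ : Continuous fun x : SL × Circle => cQ ((x.1 : SL) : M2) :=
    continuous_cQ.comp continuous_fst
  have hζ : Continuous fun x : SL × Circle => ((x.2 : Circle) : ℂ) :=
    cont_coe.comp continuous_snd
  have h : Continuous fun x : SL × Circle => ((mob x.1 x.2 : Circle) : ℂ) := by
    simp only [coe_mob]
    refine Continuous.div ?_ ?_ fun x => den_ne_zero x.1 x.2
    · exact (hP.mul hζ).add hQ
    · exact ((Complex.continuous_conj.comp hQ).mul hζ).add (Complex.continuous_conj.comp hP)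
  exact continuous_induced_rng.2 h

/-- The action of `GG` on the torus, as a continuous map. -/
noncomputable def phi (g : GG) : C(TT, TT) where
  toFun x := (mob g.1 x.1, mob g.2 x.2)
  continuous_toFun := by
    have h1 : Continuous fun x : TT => mob g.1 x.1 :=
      continuous_mob.comp (continuous_const.prodMk continuous_fst)
    have h2 : Continuous fun x : TT => mob g.2 x.2 :=
      continuous_mob.comp (continuous_const.prodMk continuous_snd)
    exact h1.prodMk h2

theorem phi_mul (g h : GG) : phi (g * h) = (phi g).comp (phi h) := by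
  apply ContinuousMap.ext
  intro x
  exact Prod.ext (mob_mul g.1 h.1 x.1) (mob_mul g.2 h.2 x.2)

theorem phi_one : phi 1 = ContinuousMap.id TT := by
  apply ContinuousMap.ext
  intro x
  exact Prod.ext (mob_one x.1) (mob_one x.2)

theorem continuous_phi : Continuous phi := by
  apply ContinuousMap.continuous_of_continuous_uncurry
  have h1 : Continuous fun x : GG × TT => mob x.1.1 x.2.1 :=
    continuous_mob.comp ((continuous_fst.comp continuous_fst).prodMk
      (continuous_fst.comp continuous_snd))
  have h2 : Continuous fun x : GG × TT => mob x.1.2 x.2.2 :=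
    continuous_mob.comp ((continuous_snd.comp continuous_fst).prodMk
      (continuous_snd.comp continuous_snd))
  exact h1.prodMk h2

/-- The action of `GG` on functions. -/
noncomputable def rho : GG →* (EE →L[ℂ] EE) where
  toFun g :=
    { toFun := fun f => f.comp (phi g⁻¹)
      map_add' := fun f h => rfl
      map_smul' := fun c f => rfl
      cont := ContinuousMap.continuous_precomp _ }
  map_one' := by
    apply ContinuousLinearMap.ext
    intro f
    change f.comp (phi 1⁻¹) = f
    rw [inv_one, phi_one, ContinuousMap.comp_id]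
  map_mul' g h := by
    apply ContinuousLinearMap.ext
    intro f
    change f.comp (phi (g * h)⁻¹) = (f.comp (phi h⁻¹)).comp (phi g⁻¹)
    rw [_root_.mul_inv_rev, phi_mul, ContinuousMap.comp_assoc]

theorem rho_apply (g : GG) (f : EE) : rho g f = f.comp (phi g⁻¹) := rfl

theorem rho_mul (g : GG) (f h : EE) : rho g (f * h) = rho g f * rho g h := rfl

theorem rho_one (g : GG) : rho g 1 = 1 := rfl

theorem rho_star (g : GG) (f : EE) : rho g (star f) = star (rho g f) := rfl

theorem continuous_rho : Continuous fun x : GG × EE => rho x.1 x.2 := by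
  have h1 : Continuous fun x : GG × EE => phi x.1⁻¹ :=
    continuous_phi.comp (continuous_inv.comp continuous_fst)
  exact continuous_snd.compCM h1

/-- The first coordinate function. -/
noncomputable def Z1 : EE := ⟨fun x => (x.1 : ℂ), cont_coe.comp continuous_fst⟩

/-- The second coordinate function. -/
noncomputable def Z2 : EE := ⟨fun x => (x.2 : ℂ), cont_coe.comp continuous_snd⟩

/-- The monomials, as functions on the torus. -/
noncomputable def mon : Multiplicative (ℤ × ℤ) →* EE where
  toFun a := ⟨fun x => ((x.1 ^ (Multiplicative.toAdd a).1 * x.2 ^ (Multiplicative.toAdd a).2 :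
    Circle) : ℂ), cont_coe.comp
      ((continuous_fst.zpow _).mul (continuous_snd.zpow _))⟩
  map_one' := by
    apply ContinuousMap.ext; intro x
    simp
  map_mul' a b := by
    apply ContinuousMap.ext; intro x
    simp only [ContinuousMap.coe_mk, ContinuousMap.mul_apply, toAdd_mul, Prod.fst_add,
      Prod.snd_add, _root_.zpow_add]
    rw [← Circle.coe_mul]
    congr 1
    exact mul_mul_mul_comm _ _ _ _

/-- The inclusion of the Laurent polynomials in the continuous functions. -/
noncomputable def iota : VV →ₐ[ℂ] EE := AddMonoidAlgebra.lift ℂ EE (ℤ × ℤ) mon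

theorem iota_bV (a : ℤ × ℤ) : iota (bV a) = mon (Multiplicative.ofAdd a) := by
  rw [iota, bV_apply]
  simp

theorem iota_bV_apply (a : ℤ × ℤ) (x : TT) :
    iota (bV a) x = ((x.1 ^ a.1 * x.2 ^ a.2 : Circle) : ℂ) := by
  rw [iota_bV]; rfl

theorem iota_z1 : iota (bV (1, 0)) = Z1 := by
  apply ContinuousMap.ext; intro x
  rw [iota_bV_apply]
  simp [Z1]

theorem iota_z2 : iota (bV (0, 1)) = Z2 := by
  apply ContinuousMap.ext; intro x
  rw [iota_bV_apply]
  simp [Z2]

theorem star_iota_bV (a : ℤ × ℤ) : star (iota (bV a)) = iota (bV (-a)) := by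
  apply ContinuousMap.ext; intro x
  rw [ContinuousMap.star_apply, iota_bV_apply, iota_bV_apply]
  change conj _ = _
  rw [← Circle.coe_inv_eq_conj, _root_.mul_inv, Prod.fst_neg, Prod.snd_neg, _root_.zpow_neg,
    _root_.zpow_neg]

end Pool.Agent.Lib.MP_6a3a89_al
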