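import Pool.Agent.Lib.MP_6a3a89_al.Defs

set_option autoImplicit false

/-!
# The module of Laurent polynomials in two variables
-/

namespace Pool.Agent.Lib.MP_6a3a89_al

open Matrix ComplexConjugate

/-- Laurent polynomials in two variables. -/
abbrev VV : Type := AddMonoidAlgebra ℂ (ℤ × ℤ)

/-- The monomial basis. -/
noncomputable def bV : Module.Basis (ℤ × ℤ) ℂ VV := ⟨AddMonoidAlgebra.coeffLinearEquiv ℂ⟩

theorem bV_apply (a : ℤ × ℤ) : bV a = AddMonoidAlgebra.single a 1 := rfl

theorem bV_mul (a b : ℤ × ℤ) : bV a * bV b = bV (a + b) := by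
  rw [bV_apply, bV_apply, bV_apply, AddMonoidAlgebra.single_mul_single, one_mul]

theorem bV_zero : bV 0 = 1 := rfl

theorem single_eq (a : ℤ × ℤ) (r : ℂ) : (AddMonoidAlgebra.single a r : VV) = r • bV a := by
  rw [bV_apply, AddMonoidAlgebra.smul_single, smul_eq_mul, mul_one]

/-- Induction principle for linear statements. -/
theorem VV_induction {p : VV → Prop} (v : VV) (h0 : p 0) (hadd : ∀ u w, p u → p w → p (u + w))
    (hb : ∀ (a : ℤ × ℤ) (r : ℂ), p (r • bV a)) : p v := by
  induction v using AddMonoidAlgebra.induction_linear with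
  | zero => exact h0
  | add u w hu hw => exact hadd u w hu hw
  | single a r => rw [single_eq]; exact hb a r

/-- Weight operators as linear maps: `bV a ↦ w a • bV a`. -/
noncomputable def wt (w : ℤ × ℤ → ℂ) : Module.End ℂ VV := bV.constr ℂ fun a => w a • bV a

theorem wt_bV (w : ℤ × ℤ → ℂ) (a : ℤ × ℤ) : wt w (bV a) = w a • bV a := by
  rw [wt, Module.Basis.constr_basis]

theorem wt_leibniz (w : ℤ × ℤ → ℂ) (hw : ∀ a b, w (a + b) = w a + w b) (u v : VV) :
    wt w (u * v) = u • wt w v + v • wt w u := by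
  induction u using VV_induction with
  | h0 => simp
  | hadd u u' hu hu' => rw [add_mul, map_add, hu, hu', map_add]; simp only [smul_eq_mul]; ring
  | hb a r =>
    induction v using VV_induction with
    | h0 => simp
    | hadd v v' hv hv' => rw [mul_add, map_add, hv, hv', map_add]; simp only [smul_eq_mul]; ring
    | hb b s =>
      rw [smul_mul_smul_comm, bV_mul, map_smul, map_smul, map_smul, wt_bV, wt_bV, wt_bV, hw]
      simp only [smul_eq_mul, smul_smul, smul_mul_smul_comm, bV_mul]
      rw [add_comm b a, ← add_smul]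
      congr 1
      ring

/-- The derivation `z ∂/∂z`. -/
noncomputable def d1 : Derivation ℂ VV VV :=
  Derivation.mk' (wt fun a => (a.1 : ℂ)) (wt_leibniz _ (by intro a b; simp))

/-- The derivation `w ∂/∂w`. -/
noncomputable def d2 : Derivation ℂ VV VV :=
  Derivation.mk' (wt fun a => (a.2 : ℂ)) (wt_leibniz _ (by intro a b; simp))

theorem d1_bV (a : ℤ × ℤ) : d1 (bV a) = (a.1 : ℂ) • bV a := wt_bV _ a
theorem d2_bV (a : ℤ × ℤ) : d2 (bV a) = (a.2 : ℂ) • bV a := wt_bV _ a

theorem d1_d2 (v : VV) : d1 (d2 v) = d2 (d1 v) := by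
  induction v using VV_induction with
  | h0 => simp
  | hadd u w hu hw => rw [map_add, map_add, map_add, map_add, hu, hw]
  | hb a r =>
    rw [Derivation.map_smul, Derivation.map_smul, Derivation.map_smul, Derivation.map_smul,
      d1_bV, d2_bV, Derivation.map_smul, Derivation.map_smul, d1_bV, d2_bV,
      smul_comm (a.1 : ℂ) (a.2 : ℂ)]

/-- The complex-linear part of a real matrix acting on `ℂ = ℝ²`. -/
noncomputable def cP (X : M2) : ℂ := ⟨(X 0 0 + X 1 1) / 2, (X 1 0 - X 0 1) / 2⟩

/-- The complex-antilinear part of a real matrix acting on `ℂ = ℝ²`. -/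
noncomputable def cQ (X : M2) : ℂ := ⟨(X 0 0 - X 1 1) / 2, (X 1 0 + X 0 1) / 2⟩

theorem cP_mul (X Y : M2) : cP (X * Y) = cP X * cP Y + cQ X * conj (cQ Y) := by
  apply Complex.ext <;>
  simp [cP, cQ, Matrix.mul_apply, Fin.sum_univ_two] <;> ring

theorem cQ_mul (X Y : M2) : cQ (X * Y) = cP X * cQ Y + cQ X * conj (cP Y) := by
  apply Complex.ext <;>
  simp [cP, cQ, Matrix.mul_apply, Fin.sum_univ_two] <;> ring

theorem cP_add (X Y : M2) : cP (X + Y) = cP X + cP Y := by
  apply Complex.ext <;> simp [cP] <;> ring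

theorem cQ_add (X Y : M2) : cQ (X + Y) = cQ X + cQ Y := by
  apply Complex.ext <;> simp [cQ] <;> ring

theorem cP_sub (X Y : M2) : cP (X - Y) = cP X - cP Y := by
  apply Complex.ext <;> simp [cP] <;> ring

theorem cQ_sub (X Y : M2) : cQ (X - Y) = cQ X - cQ Y := by
  apply Complex.ext <;> simp [cQ] <;> ring

theorem cP_smul (r : ℝ) (X : M2) : cP (r • X) = r * cP X := by
  apply Complex.ext <;> simp [cP] <;> ring

theorem cQ_smul (r : ℝ) (X : M2) : cQ (r • X) = r * cQ X := by
  apply Complex.ext <;> simp [cQ] <;> ring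

theorem cP_sl (X : sl) : conj (cP (X : M2)) = - cP (X : M2) := by
  have h := sl_trace X
  apply Complex.ext
  · simp [cP]; linarith
  · simp [cP]

theorem normSq_det (X : M2) : cP X * conj (cP X) - cQ X * conj (cQ X) =
    ((Matrix.det X : ℝ) : ℂ) := by
  rw [Matrix.det_fin_two]
  apply Complex.ext <;>
  simp [cP, cQ] <;> ring

end Pool.Agent.Lib.MP_6a3a89_al
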