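import Pool.Agent.Lib.MP_6a3a89_al.Mobius

set_option autoImplicit false

/-!
# The sup norm is `G`-continuous
-/

namespace Pool.Agent.Lib.MP_6a3a89_al

open Matrix ComplexConjugate

theorem cP_inv (g : SL) : cP ((g⁻¹ : SL) : M2) = conj (cP (g : M2)) := by
  rw [Matrix.SpecialLinearGroup.coe_inv, Matrix.adjugate_fin_two]
  apply Complex.ext
  · simp [cP]; ring
  · simp [cP]; ring

theorem cQ_inv (g : SL) : cQ ((g⁻¹ : SL) : M2) = - cQ (g : M2) := by
  rw [Matrix.SpecialLinearGroup.coe_inv, Matrix.adjugate_fin_two]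
  apply Complex.ext
  · simp [cQ]; ring
  · simp [cQ]; ring

/-- Algebra induction principle. -/
theorem VV_alg_induction {P : VV → Prop} (v : VV) (h0 : P 0) (h1 : ∀ r : ℂ, P (r • (1 : VV)))
    (hadd : ∀ u w, P u → P w → P (u + w)) (hmul : ∀ u w, P u → P w → P (u * w))
    (hz1 : P (bV (1, 0))) (hz1' : P (bV (-1, 0))) (hz2 : P (bV (0, 1))) (hz2' : P (bV (0, -1))) :
    P v := by
  have hone : P 1 := by simpa using h1 1
  have hA : ∀ m : ℤ, P (bV (m, 0)) := by
    intro m
    induction m using Int.induction_on with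
    | zero => exact hone
    | succ i hi =>
      have := hmul _ _ hi hz1
      rw [bV_mul] at this
      simpa using this
    | pred i hi =>
      have := hmul _ _ hi hz1'
      rw [bV_mul] at this
      simpa [sub_eq_add_neg] using this
  have hB : ∀ m : ℤ, P (bV (0, m)) := by
    intro m
    induction m using Int.induction_on with
    | zero => exact hone
    | succ i hi =>
      have := hmul _ _ hi hz2
      rw [bV_mul] at this
      simpa using this
    | pred i hi =>
      have := hmul _ _ hi hz2'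
      rw [bV_mul] at this
      simpa [sub_eq_add_neg] using this
  induction v using VV_induction with
  | h0 => exact h0
  | hadd u w hu hw => exact hadd u w hu hw
  | hb a r =>
    have h := hmul _ _ (h1 r) (hmul _ _ (hA a.1) (hB a.2))
    rw [bV_mul, smul_mul_assoc, one_mul] at h
    simpa using h

/-! ### Density and injectivity -/

theorem star_iota (v : VV) : ∃ w : VV, iota w = star (iota v) := by
  induction v using VV_induction with
  | h0 => exact ⟨0, by simp⟩
  | hadd u w hu hw =>
    obtain ⟨u', hu'⟩ := hu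
    obtain ⟨w', hw'⟩ := hw
    exact ⟨u' + w', by rw [map_add, map_add, hu', hw', star_add]⟩
  | hb a r =>
    refine ⟨conj r • bV (-a), ?_⟩
    rw [map_smul, map_smul, ← star_iota_bV, star_smul]
    rfl

/-- The Laurent polynomials as a star subalgebra of the continuous functions. -/
noncomputable def polyStar : StarSubalgebra ℂ EE where
  __ := iota.range
  star_mem' := by
    rintro _ ⟨v, rfl⟩
    obtain ⟨w, hw⟩ := star_iota v
    exact ⟨w, hw⟩

theorem denseRange_iota : DenseRange iota := by
  have hsep : polyStar.SeparatesPoints := by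
    intro x y hxy
    by_cases h1 : x.1 = y.1
    · have h2 : x.2 ≠ y.2 := fun h => hxy (Prod.ext h1 h)
      refine ⟨Z2, ⟨Z2, ⟨bV (0, 1), iota_z2⟩, rfl⟩, fun h => h2 ?_⟩
      exact Circle.ext h
    · refine ⟨Z1, ⟨Z1, ⟨bV (1, 0), iota_z1⟩, rfl⟩, fun h => h1 ?_⟩
      exact Circle.ext h
  have h := ContinuousMap.starSubalgebra_topologicalClosure_eq_top_of_separatesPoints polyStar hsep
  intro f
  have hf : f ∈ polyStar.topologicalClosure := by rw [h]; trivial
  exact hf

/-- The characters of the torus. -/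
noncomputable def chi (a : ℤ × ℤ) : TT →* ℂ where
  toFun x := ((x.1 ^ a.1 * x.2 ^ a.2 : Circle) : ℂ)
  map_one' := by simp
  map_mul' x y := by
    rw [← Circle.coe_mul]
    congr 1
    rw [Prod.fst_mul, Prod.snd_mul, mul_zpow, mul_zpow]
    exact mul_mul_mul_comm _ _ _ _

theorem exp_zpow_injective (m n : ℤ) (h : ∀ θ : ℝ, Complex.exp (θ * Complex.I) ^ m =
    Complex.exp (θ * Complex.I) ^ n) : m = n := by
  by_contra hne
  have hne' : ((m - n : ℤ) : ℂ) ≠ 0 := by
    have : m - n ≠ 0 := sub_ne_zero.2 hne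
    exact_mod_cast this
  have h1 := h (Real.pi / (((m - n : ℤ) : ℝ)))
  have h2 : Complex.exp (((Real.pi / (((m - n : ℤ) : ℝ)) : ℝ) : ℂ) * Complex.I) ^
      ((m - n)) = 1 := by
    rw [zpow_sub₀ (Complex.exp_ne_zero _), h1, div_self]
    exact zpow_ne_zero _ (Complex.exp_ne_zero _)
  rw [← Complex.exp_int_mul] at h2
  have h3 : (((m - n) : ℤ) : ℂ) * (((Real.pi / (((m - n : ℤ) : ℝ)) : ℝ) : ℂ) *
      Complex.I) = Real.pi * Complex.I := by
    push_cast at hne' ⊢
    field_simp
  rw [h3, Complex.exp_pi_mul_I] at h2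
  norm_num at h2

theorem chi_injective : Function.Injective chi := by
  intro a b h
  have h1 : a.1 = b.1 := by
    apply exp_zpow_injective
    intro θ
    have := DFunLike.congr_fun h (Circle.exp θ, 1)
    simpa [chi] using this
  have h2 : a.2 = b.2 := by
    apply exp_zpow_injective
    intro θ
    have := DFunLike.congr_fun h (1, Circle.exp θ)
    simpa [chi] using this
  exact Prod.ext h1 h2

theorem iota_injective : Function.Injective iota := by
  have hli : LinearIndependent ℂ (fun a : ℤ × ℤ => (chi a : TT → ℂ)) :=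
    (linearIndependent_monoidHom TT ℂ).comp chi chi_injective
  rw [injective_iff_map_eq_zero]
  intro v hv
  have h1 : Finsupp.linearCombination ℂ (fun a : ℤ × ℤ => (chi a : TT → ℂ)) (bV.repr v) = 0 := by
    funext x
    have h2 : iota v x = 0 := by rw [hv]; rfl
    have h3 : iota v = Finsupp.linearCombination ℂ (fun a => iota (bV a)) (bV.repr v) := by
      conv_lhs => rw [← bV.linearCombination_repr v]
      rw [Finsupp.linearCombination_apply, Finsupp.linearCombination_apply, Finsupp.sum,
        Finsupp.sum, map_sum]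
      simp only [map_smul]
    rw [h3, Finsupp.linearCombination_apply, Finsupp.sum, ContinuousMap.sum_apply] at h2
    rw [Finsupp.linearCombination_apply, Finsupp.sum, Finset.sum_apply, Pi.zero_apply, ← h2]
    refine Finset.sum_congr rfl fun a _ => ?_
    rw [Pi.smul_apply, ContinuousMap.smul_apply, iota_bV_apply]
    rfl
  have h4 := linearIndependent_iff.1 hli _ h1
  exact bV.repr.map_eq_zero_iff.1 h4

/-! ### Compatibility with `K` -/

theorem mob_K {g : SL} (hg : g ∈ SO2) (ζ : Circle) :
    (mob g⁻¹ ζ : ℂ) = conj (cP (g : M2)) ^ 2 * ζ := by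
  obtain ⟨hq, hp⟩ := SO2_spec hg
  rw [coe_mob, num, den, cP_inv, cQ_inv, hq, neg_zero, map_zero, zero_mul, zero_add, add_zero,
    Complex.conj_conj]
  have hne : cP (g : M2) ≠ 0 := left_ne_zero_of_mul (hp ▸ one_ne_zero)
  rw [div_eq_iff hne]
  linear_combination (-(conj (cP (g : M2)) * ζ)) * hp

theorem rho_kap (k : KK) (v : VV) : rho k (iota v) = iota (kap k v) := by
  induction v using VV_induction with
  | h0 => simp
  | hadd u w hu hw => rw [map_add, map_add, map_add, map_add, hu, hw]
  | hb a r =>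
    rw [map_smul, map_smul, map_smul, kap_bV, map_smul, map_smul]
    congr 1
    apply ContinuousMap.ext
    intro x
    rw [ContinuousMap.smul_apply, iota_bV_apply, rho_apply, ContinuousMap.comp_apply,
      iota_bV_apply]
    change (((mob ((k : GG).1)⁻¹ x.1) ^ a.1 * (mob ((k : GG).2)⁻¹ x.2) ^ a.2 : Circle) : ℂ) = _
    have e : ((x.1 ^ a.1 * x.2 ^ a.2 : Circle) : ℂ) = (x.1 : ℂ) ^ a.1 * (x.2 : ℂ) ^ a.2 := rfl
    have e' : (((mob ((k : GG).1)⁻¹ x.1) ^ a.1 * (mob ((k : GG).2)⁻¹ x.2) ^ a.2 : Circle) : ℂ) =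
      (mob ((k : GG).1)⁻¹ x.1 : ℂ) ^ a.1 * (mob ((k : GG).2)⁻¹ x.2 : ℂ) ^ a.2 := rfl
    rw [e, e', mob_K k.2.1, mob_K k.2.2, charK, mul_zpow, mul_zpow, smul_eq_mul,
      _root_.zpow_mul, _root_.zpow_mul, zpow_ofNat, zpow_ofNat]
    ring

end Pool.Agent.Lib.MP_6a3a89_al
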