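import Pool.Agent.Lib.MP_6a3a89_al.Smooth

set_option autoImplicit false

/-!
# The sup norm is `G`-continuous: smoothness
-/

namespace Pool.Agent.Lib.MP_6a3a89_al

open Matrix ComplexConjugate

section Smooth

variable {S : Type} [NormedAddCommGroup S] [NormedSpace ℝ S]

theorem contDiff_conj {m : ℕ} {f : S → ℂ} (hf : ContDiff ℝ m f) :
    ContDiff ℝ m fun t => conj (f t) :=
  (Complex.conjCLE.toContinuousLinearMap.contDiff (𝕜 := ℝ)).comp hf

/-- Smooth families of elements of `GG`. -/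
structure SmoothG (m : ℕ) (γ : S → GG) : Prop where
  p1 : ContDiff ℝ m fun t => cP ((γ t).1 : M2)
  q1 : ContDiff ℝ m fun t => cQ ((γ t).1 : M2)
  p2 : ContDiff ℝ m fun t => cP ((γ t).2 : M2)
  q2 : ContDiff ℝ m fun t => cQ ((γ t).2 : M2)

theorem SmoothG.mul {m : ℕ} {γ δ : S → GG} (hγ : SmoothG m γ) (hδ : SmoothG m δ) :
    SmoothG m (fun t => γ t * δ t) where
  p1 := by
    have : (fun t => cP (((γ t * δ t).1 : SL) : M2)) = fun t => cP ((γ t).1 : M2) *
        cP ((δ t).1 : M2) + cQ ((γ t).1 : M2) * conj (cQ ((δ t).1 : M2)) := by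
      funext t
      rw [Prod.fst_mul, coeMul, cP_mul]
    rw [this]
    exact (hγ.p1.mul hδ.p1).add (hγ.q1.mul (contDiff_conj hδ.q1))
  q1 := by
    have : (fun t => cQ (((γ t * δ t).1 : SL) : M2)) = fun t => cP ((γ t).1 : M2) *
        cQ ((δ t).1 : M2) + cQ ((γ t).1 : M2) * conj (cP ((δ t).1 : M2)) := by
      funext t
      rw [Prod.fst_mul, coeMul, cQ_mul]
    rw [this]
    exact (hγ.p1.mul hδ.q1).add (hγ.q1.mul (contDiff_conj hδ.p1))
  p2 := by
    have : (fun t => cP (((γ t * δ t).2 : SL) : M2)) = fun t => cP ((γ t).2 : M2) *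
        cP ((δ t).2 : M2) + cQ ((γ t).2 : M2) * conj (cQ ((δ t).2 : M2)) := by
      funext t
      rw [Prod.snd_mul, coeMul, cP_mul]
    rw [this]
    exact (hγ.p2.mul hδ.p2).add (hγ.q2.mul (contDiff_conj hδ.q2))
  q2 := by
    have : (fun t => cQ (((γ t * δ t).2 : SL) : M2)) = fun t => cP ((γ t).2 : M2) *
        cQ ((δ t).2 : M2) + cQ ((γ t).2 : M2) * conj (cP ((δ t).2 : M2)) := by
      funext t
      rw [Prod.snd_mul, coeMul, cQ_mul]
    rw [this]
    exact (hγ.p2.mul hδ.q2).add (hγ.q2.mul (contDiff_conj hδ.p2))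

theorem SmoothG.const (m : ℕ) (g : GG) : SmoothG m (fun _ : S => g) :=
  ⟨contDiff_const, contDiff_const, contDiff_const, contDiff_const⟩

open scoped Matrix.Norms.Operator in
theorem contDiff_exp_entry (X : M2) (m : ℕ) (i j : Fin 2) :
    ContDiff ℝ m fun u : ℝ => NormedSpace.exp (u • X) i j := by
  have h1 : ContDiff ℝ m (NormedSpace.exp : M2 → M2) := by
    rw [contDiff_iff_contDiffAt]
    intro x
    exact (NormedSpace.exp_analytic (𝕂 := ℝ) x).contDiffAt
  have h2 : ContDiff ℝ m fun u : ℝ => NormedSpace.exp (u • X) :=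
    h1.comp (contDiff_id.smul contDiff_const)
  have h3 := (LinearMap.toContinuousLinearMap (Matrix.entryLinearMap ℝ ℝ i j :
    M2 →ₗ[ℝ] ℝ)).contDiff (n := m)
  exact h3.comp h2

theorem contDiff_ofReal {m : ℕ} {f : S → ℝ} (hf : ContDiff ℝ m f) :
    ContDiff ℝ m fun t => ((f t : ℝ) : ℂ) :=
  (Complex.ofRealCLM.contDiff (𝕜 := ℝ)).comp hf

theorem contDiff_cP_exp (X : M2) (m : ℕ) :
    ContDiff ℝ m fun u : ℝ => cP (NormedSpace.exp (u • X)) := by
  have h := fun i j => contDiff_exp_entry X m i j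
  have h1 := contDiff_ofReal (((h 0 0).add (h 1 1)).div_const 2)
  have h2 := (contDiff_ofReal (((h 1 0).sub (h 0 1)).div_const 2)).mul
    (contDiff_const (c := Complex.I))
  have h3 := h1.add h2
  have : (fun u : ℝ => cP (NormedSpace.exp (u • X))) = _ := funext fun u => cP_eq _
  rw [this]
  exact h3

theorem contDiff_cQ_exp (X : M2) (m : ℕ) :
    ContDiff ℝ m fun u : ℝ => cQ (NormedSpace.exp (u • X)) := by
  have h := fun i j => contDiff_exp_entry X m i j
  have h1 := contDiff_ofReal (((h 0 0).sub (h 1 1)).div_const 2)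
  have h2 := (contDiff_ofReal (((h 1 0).add (h 0 1)).div_const 2)).mul
    (contDiff_const (c := Complex.I))
  have h3 := h1.add h2
  have : (fun u : ℝ => cQ (NormedSpace.exp (u • X))) = _ := funext fun u => cQ_eq _
  rw [this]
  exact h3

theorem SmoothG.exp {m : ℕ} {f : S → ℝ} (hf : ContDiff ℝ m f) (X : LG) :
    SmoothG m (fun t => expG (f t • X)) where
  p1 := (contDiff_cP_exp (X.1 : M2) m).comp hf
  q1 := (contDiff_cQ_exp (X.1 : M2) m).comp hf
  p2 := (contDiff_cP_exp (X.2 : M2) m).comp hf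
  q2 := (contDiff_cQ_exp (X.2 : M2) m).comp hf

theorem SmoothG.list_prod {m : ℕ} : ∀ {n : ℕ} (f : Fin n → S → ℝ) (_ : ∀ i, ContDiff ℝ m (f i))
    (X : Fin n → LG), SmoothG m (fun t => (List.ofFn fun i => expG (f i t • X i)).prod)
  | 0, _, _, _ => by
    simp only [List.ofFn_zero, List.prod_nil]
    exact SmoothG.const m 1
  | n + 1, f, hf, X => by
    simp only [List.ofFn_succ, List.prod_cons]
    exact (SmoothG.exp (hf 0) (X 0)).mul
      (SmoothG.list_prod (fun i => f i.succ) (fun i => hf i.succ) (fun i => X i.succ))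

/-! ### Smoothness of the orbit maps -/

/-- Numerator function, first variable. -/
noncomputable def nm1 (g : GG) : EE :=
  conj (cP (g.1 : M2)) • Z1 + (-cQ (g.1 : M2)) • (1 : EE)
/-- Denominator function, first variable. -/
noncomputable def dn1 (g : GG) : EE :=
  (-conj (cQ (g.1 : M2))) • Z1 + cP (g.1 : M2) • (1 : EE)
/-- Numerator function, second variable. -/
noncomputable def nm2 (g : GG) : EE :=
  conj (cP (g.2 : M2)) • Z2 + (-cQ (g.2 : M2)) • (1 : EE)
/-- Denominator function, second variable. -/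
noncomputable def dn2 (g : GG) : EE :=
  (-conj (cQ (g.2 : M2))) • Z2 + cP (g.2 : M2) • (1 : EE)

theorem dn1_apply (g : GG) (x : TT) : dn1 g x = den (g.1)⁻¹ x.1 := by
  rw [den, cP_inv, cQ_inv, map_neg, Complex.conj_conj]
  simp [dn1, Z1]

theorem dn2_apply (g : GG) (x : TT) : dn2 g x = den (g.2)⁻¹ x.2 := by
  rw [den, cP_inv, cQ_inv, map_neg, Complex.conj_conj]
  simp [dn2, Z2]

theorem nm1_apply (g : GG) (x : TT) : nm1 g x = num (g.1)⁻¹ x.1 := by
  rw [num, cP_inv, cQ_inv]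
  simp [nm1, Z1]

theorem nm2_apply (g : GG) (x : TT) : nm2 g x = num (g.2)⁻¹ x.2 := by
  rw [num, cP_inv, cQ_inv]
  simp [nm2, Z2]

theorem isUnit_dn1 (g : GG) : IsUnit (dn1 g) := by
  rw [ContinuousMap.isUnit_iff_forall_ne_zero]
  intro x
  rw [dn1_apply]
  exact den_ne_zero _ _

theorem isUnit_dn2 (g : GG) : IsUnit (dn2 g) := by
  rw [ContinuousMap.isUnit_iff_forall_ne_zero]
  intro x
  rw [dn2_apply]
  exact den_ne_zero _ _

theorem rho_Z1 (g : GG) : rho g Z1 * dn1 g = nm1 g := by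
  apply ContinuousMap.ext
  intro x
  rw [ContinuousMap.mul_apply, dn1_apply, nm1_apply]
  change (mob (g.1)⁻¹ x.1 : ℂ) * _ = _
  rw [coe_mob, div_mul_cancel₀ _ (den_ne_zero _ _)]

theorem rho_Z2 (g : GG) : rho g Z2 * dn2 g = nm2 g := by
  apply ContinuousMap.ext
  intro x
  rw [ContinuousMap.mul_apply, dn2_apply, nm2_apply]
  change (mob (g.2)⁻¹ x.2 : ℂ) * _ = _
  rw [coe_mob, div_mul_cancel₀ _ (den_ne_zero _ _)]

theorem contDiff_div_helper {m : ℕ} {F N D : S → EE} (hN : ContDiff ℝ m N) (hD : ContDiff ℝ m D)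
    (hu : ∀ t, IsUnit (D t)) (h : ∀ t, F t * D t = N t) : ContDiff ℝ m F := by
  have hF : F = fun t => N t * Ring.inverse (D t) := by
    funext t
    exact (Ring.eq_mul_inverse_iff_mul_eq _ _ _ (hu t)).2 (h t)
  rw [hF]
  refine hN.mul ?_
  rw [contDiff_iff_contDiffAt]
  intro t
  obtain ⟨u, hu'⟩ := hu t
  have h1 : ContDiffAt ℝ m Ring.inverse (D t) := by
    rw [← hu']; exact contDiffAt_ringInverse ℝ u
  exact h1.comp t hD.contDiffAt

theorem contDiff_smul_EE {m : ℕ} {f : S → ℂ} (hf : ContDiff ℝ m f) (F : EE) :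
    ContDiff ℝ m fun t => f t • F := hf.smul contDiff_const

theorem SmoothG.rho_Z1 {m : ℕ} {γ : S → GG} (hγ : SmoothG m γ) :
    ContDiff ℝ m fun t => rho (γ t) Z1 := by
  refine contDiff_div_helper (N := fun t => nm1 (γ t)) (D := fun t => dn1 (γ t)) ?_ ?_
    (fun t => isUnit_dn1 _) (fun t => MP_6a3a89_al.rho_Z1 _)
  · exact (contDiff_smul_EE (contDiff_conj hγ.p1) _).add (contDiff_smul_EE hγ.q1.neg _)
  · exact (contDiff_smul_EE (contDiff_conj hγ.q1).neg _).add (contDiff_smul_EE hγ.p1 _)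

theorem SmoothG.rho_Z2 {m : ℕ} {γ : S → GG} (hγ : SmoothG m γ) :
    ContDiff ℝ m fun t => rho (γ t) Z2 := by
  refine contDiff_div_helper (N := fun t => nm2 (γ t)) (D := fun t => dn2 (γ t)) ?_ ?_
    (fun t => isUnit_dn2 _) (fun t => MP_6a3a89_al.rho_Z2 _)
  · exact (contDiff_smul_EE (contDiff_conj hγ.p2) _).add (contDiff_smul_EE hγ.q2.neg _)
  · exact (contDiff_smul_EE (contDiff_conj hγ.q2).neg _).add (contDiff_smul_EE hγ.p2 _)

theorem contDiff_star_EE {m : ℕ} {F : S → EE} (hF : ContDiff ℝ m F) :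
    ContDiff ℝ m fun t => star (F t) :=
  ((starL' ℝ : EE ≃L[ℝ] EE).toContinuousLinearMap.contDiff (𝕜 := ℝ)).comp hF

theorem SmoothG.rho_iota {m : ℕ} {γ : S → GG} (hγ : SmoothG m γ) (v : VV) :
    ContDiff ℝ m fun t => rho (γ t) (iota v) := by
  induction v using VV_alg_induction with
  | h0 => simp only [map_zero]; exact contDiff_const
  | h1 r =>
    simp only [map_smul, map_one, MP_6a3a89_al.rho_one]; exact contDiff_const
  | hadd u w hu hw => simp only [map_add]; exact hu.add hw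
  | hmul u w hu hw => simp only [map_mul, MP_6a3a89_al.rho_mul]; exact hu.mul hw
  | hz1 => rw [iota_z1]; exact hγ.rho_Z1
  | hz1' =>
    have h : iota (bV (-1, 0)) = star Z1 := by rw [← iota_z1, star_iota_bV]; rfl
    simp only [h, MP_6a3a89_al.rho_star]
    exact contDiff_star_EE hγ.rho_Z1
  | hz2 => rw [iota_z2]; exact hγ.rho_Z2
  | hz2' =>
    have h : iota (bV (0, -1)) = star Z2 := by rw [← iota_z2, star_iota_bV]; rfl
    simp only [h, MP_6a3a89_al.rho_star]
    exact contDiff_star_EE hγ.rho_Z2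

end Smooth

end Pool.Agent.Lib.MP_6a3a89_al
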