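import Pool.Agent.Lib.MP_6a3a89_al.Smooth2

set_option autoImplicit false

/-!
# The sup norm is `G`-continuous
-/

namespace Pool.Agent.Lib.MP_6a3a89_al

open Matrix ComplexConjugate

theorem hasDerivAt_cP_zero (X : sl) :
    HasDerivAt (fun t : ℝ => cP ((expSL (t • X) : SL) : M2)) (cP (X : M2)) 0 := by
  have h := hasDerivAt_cP_exp (X : M2) 0
  rw [exp_zero_smul_mul] at h
  exact h

theorem hasDerivAt_cQ_zero (X : sl) :
    HasDerivAt (fun t : ℝ => cQ ((expSL (t • X) : SL) : M2)) (cQ (X : M2)) 0 := by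
  have h := hasDerivAt_cQ_exp (X : M2) 0
  rw [exp_zero_smul_mul] at h
  exact h

theorem expSL_zero (X : sl) : expSL ((0 : ℝ) • X) = 1 := by
  apply Subtype.ext
  rw [coe_expSL, zero_smul]
  change NormedSpace.exp (0 : M2) = 1
  exact NormedSpace.exp_zero

theorem expG_zero (X : LG) : expG ((0 : ℝ) • X) = 1 :=
  Prod.ext (expSL_zero X.1) (expSL_zero X.2)

theorem dpi_z1 (X : LG) : dpi X (bV (1, 0)) = (-cQ (X.1 : M2)) • bV 0 +
    (-(2 * cP (X.1 : M2))) • bV (1, 0) + conj (cQ (X.1 : M2)) • bV (2, 0) := by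
  rw [dpi_bV, u1]
  simp only [add_mul, smul_mul_assoc, bV_mul, one_mul]
  simp
  rfl

theorem dpi_z1' (X : LG) : dpi X (bV (-1, 0)) = (cQ (X.1 : M2)) • bV (-2, 0) +
    (2 * cP (X.1 : M2)) • bV (-1, 0) + (-conj (cQ (X.1 : M2))) • bV 0 := by
  rw [dpi_bV, u1]
  simp only [add_mul, smul_mul_assoc, bV_mul, one_mul]
  simp
  abel

theorem dpi_z2 (X : LG) : dpi X (bV (0, 1)) = (-cQ (X.2 : M2)) • bV 0 +
    (-(2 * cP (X.2 : M2))) • bV (0, 1) + conj (cQ (X.2 : M2)) • bV (0, 2) := by
  rw [dpi_bV, u2]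
  simp only [add_mul, smul_mul_assoc, bV_mul, one_mul]
  simp
  rfl

theorem dpi_z2' (X : LG) : dpi X (bV (0, -1)) = (cQ (X.2 : M2)) • bV (0, -2) +
    (2 * cP (X.2 : M2)) • bV (0, -1) + (-conj (cQ (X.2 : M2))) • bV 0 := by
  rw [dpi_bV, u2]
  simp only [add_mul, smul_mul_assoc, bV_mul, one_mul]
  simp
  abel

theorem star_smul_EE (r : ℂ) (F : EE) : star (r • F) = conj r • star F := star_smul r F

theorem conj_two_cP (X : sl) : conj (-(2 * cP (X : M2))) = 2 * cP (X : M2) := by
  rw [map_neg, map_mul, cP_sl, Complex.conj_ofNat]; ring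

theorem star_dpi_z1 (X : LG) : star (iota (dpi X (bV (1, 0)))) = iota (dpi X (bV (-1, 0))) := by
  have e : conj (-cQ (X.1 : M2)) = -conj (cQ (X.1 : M2)) := map_neg _ _
  rw [dpi_z1, dpi_z1', map_add, map_add, map_add, map_add, star_add, star_add, map_smul, map_smul,
    map_smul, map_smul, map_smul, map_smul, star_smul_EE, star_smul_EE, star_smul_EE, star_iota_bV,
    star_iota_bV, star_iota_bV, neg_zero, Complex.conj_conj, conj_two_cP, e]
  rw [show -((1, 0) : ℤ × ℤ) = (-1, 0) from rfl, show -((2, 0) : ℤ × ℤ) = (-2, 0) from rfl]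
  abel

theorem star_dpi_z2 (X : LG) : star (iota (dpi X (bV (0, 1)))) = iota (dpi X (bV (0, -1))) := by
  have e : conj (-cQ (X.2 : M2)) = -conj (cQ (X.2 : M2)) := map_neg _ _
  rw [dpi_z2, dpi_z2', map_add, map_add, map_add, map_add, star_add, star_add, map_smul, map_smul,
    map_smul, map_smul, map_smul, map_smul, star_smul_EE, star_smul_EE, star_smul_EE, star_iota_bV,
    star_iota_bV, star_iota_bV, neg_zero, Complex.conj_conj, conj_two_cP, e]
  rw [show -((0, 1) : ℤ × ℤ) = (0, -1) from rfl, show -((0, 2) : ℤ × ℤ) = (0, -2) from rfl]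
  abel

/-- If `F D = N` with `D 0 = 1`, the derivatives satisfy `F' = N' - F(0) D'`. -/
theorem deriv_helper {F N D : ℝ → EE} {N' D' : EE} (hF : DifferentiableAt ℝ F 0)
    (hN : HasDerivAt N N' 0) (hD : HasDerivAt D D' 0) (hD0 : D 0 = 1)
    (h : ∀ t, F t * D t = N t) : HasDerivAt F (N' - F 0 * D') 0 := by
  have h1 := hF.hasDerivAt
  have h2 := h1.mul hD
  have h3 : F * D = N := funext h
  rw [h3] at h2
  have h4 := h2.unique hN
  rw [hD0, mul_one] at h4
  rw [← h4, add_sub_cancel_right]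
  exact h1

theorem hasDerivAt_rho_Z1 (X : LG) :
    HasDerivAt (fun t : ℝ => rho (expG (t • X)) Z1) (iota (dpi X (bV (1, 0)))) 0 := by
  have hF : DifferentiableAt ℝ (fun t : ℝ => rho (expG (t • X)) Z1) 0 :=
    ((SmoothG.exp (m := 1) contDiff_id X).rho_Z1.differentiable (by norm_num)) 0
  have hP := hasDerivAt_cP_zero X.1
  have hQ := hasDerivAt_cQ_zero X.1
  have hN : HasDerivAt (fun t : ℝ => nm1 (expG (t • X)))
      (conj (cP (X.1 : M2)) • Z1 + (-cQ (X.1 : M2)) • (1 : EE)) 0 :=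
    ((hasDerivAt_conj hP).smul_const Z1).add (hQ.neg.smul_const (1 : EE))
  have hD : HasDerivAt (fun t : ℝ => dn1 (expG (t • X)))
      ((-conj (cQ (X.1 : M2))) • Z1 + (cP (X.1 : M2)) • (1 : EE)) 0 :=
    ((hasDerivAt_conj hQ).neg.smul_const Z1).add (hP.smul_const (1 : EE))
  have hD0 : dn1 (expG ((0 : ℝ) • X)) = 1 := by
    rw [expG_zero, dn1]
    change (-conj (cQ (1 : M2))) • Z1 + (cP (1 : M2)) • (1 : EE) = 1
    rw [cP_one, cQ_one, map_zero, neg_zero, zero_smul, zero_add, one_smul]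
  have h := deriv_helper hF hN hD hD0 (fun t => rho_Z1 _)
  refine h.congr_deriv ?_
  rw [expG_zero, map_one, cP_sl]
  change _ - Z1 * _ = _
  rw [dpi_z1, map_add, map_add, map_smul, map_smul, map_smul, bV_zero, map_one, iota_z1]
  have h2 : iota (bV (2, 0)) = Z1 * Z1 := by
    rw [← iota_z1, ← map_mul, bV_mul]; rfl
  rw [h2, mul_add, mul_smul_comm, mul_smul_comm, mul_one]
  module

theorem hasDerivAt_rho_Z2 (X : LG) :
    HasDerivAt (fun t : ℝ => rho (expG (t • X)) Z2) (iota (dpi X (bV (0, 1)))) 0 := by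
  have hF : DifferentiableAt ℝ (fun t : ℝ => rho (expG (t • X)) Z2) 0 :=
    ((SmoothG.exp (m := 1) contDiff_id X).rho_Z2.differentiable (by norm_num)) 0
  have hP := hasDerivAt_cP_zero X.2
  have hQ := hasDerivAt_cQ_zero X.2
  have hN : HasDerivAt (fun t : ℝ => nm2 (expG (t • X)))
      (conj (cP (X.2 : M2)) • Z2 + (-cQ (X.2 : M2)) • (1 : EE)) 0 :=
    ((hasDerivAt_conj hP).smul_const Z2).add (hQ.neg.smul_const (1 : EE))
  have hD : HasDerivAt (fun t : ℝ => dn2 (expG (t • X)))
      ((-conj (cQ (X.2 : M2))) • Z2 + (cP (X.2 : M2)) • (1 : EE)) 0 :=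
    ((hasDerivAt_conj hQ).neg.smul_const Z2).add (hP.smul_const (1 : EE))
  have hD0 : dn2 (expG ((0 : ℝ) • X)) = 1 := by
    rw [expG_zero, dn2]
    change (-conj (cQ (1 : M2))) • Z2 + (cP (1 : M2)) • (1 : EE) = 1
    rw [cP_one, cQ_one, map_zero, neg_zero, zero_smul, zero_add, one_smul]
  have h := deriv_helper hF hN hD hD0 (fun t => rho_Z2 _)
  refine h.congr_deriv ?_
  rw [expG_zero, map_one, cP_sl]
  change _ - Z2 * _ = _
  rw [dpi_z2, map_add, map_add, map_smul, map_smul, map_smul, bV_zero, map_one, iota_z2]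
  have h2 : iota (bV (0, 2)) = Z2 * Z2 := by
    rw [← iota_z2, ← map_mul, bV_mul]; rfl
  rw [h2, mul_add, mul_smul_comm, mul_smul_comm, mul_one]
  module

theorem dpi_mul (X : LG) (u v : VV) : dpi X (u * v) = dpi X u * v + u * dpi X v := by
  rw [dpi_apply, dpi_apply, dpi_apply, Derivation.leibniz, Derivation.leibniz]
  simp only [smul_eq_mul]
  ring

theorem dpi_smul_one (X : LG) (r : ℂ) : dpi X (r • (1 : VV)) = 0 := by
  rw [map_smul, dpi_apply, d1_one, d2_one, mul_zero, mul_zero, add_zero, smul_zero]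

theorem hasDerivAt_rho (X : LG) (v : VV) :
    HasDerivAt (fun t : ℝ => rho (expG (t • X)) (iota v)) (iota (dpi X v)) 0 := by
  induction v using VV_alg_induction with
  | h0 => simp only [map_zero]; exact hasDerivAt_const _ _
  | h1 r =>
    rw [dpi_smul_one]
    simp only [map_smul, map_one, rho_one, map_zero]; exact hasDerivAt_const _ _
  | hadd u w hu hw => simp only [map_add]; exact hu.add hw
  | hmul u w hu hw =>
    rw [dpi_mul]
    simp only [map_mul, rho_mul, map_add]
    refine (hu.mul hw).congr_deriv ?_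
    rw [expG_zero, map_one]; rfl
  | hz1 => rw [iota_z1]; exact hasDerivAt_rho_Z1 X
  | hz1' =>
    have h : iota (bV (-1, 0)) = star Z1 := by rw [← iota_z1, star_iota_bV]; rfl
    rw [h, ← star_dpi_z1]
    simp only [rho_star]
    exact (hasDerivAt_rho_Z1 X).star
  | hz2 => rw [iota_z2]; exact hasDerivAt_rho_Z2 X
  | hz2' =>
    have h : iota (bV (0, -1)) = star Z2 := by rw [← iota_z2, star_iota_bV]; rfl
    rw [h, ← star_dpi_z2]
    simp only [rho_star]
    exact (hasDerivAt_rho_Z2 X).star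

theorem NormedSpace_ext' {E : Type} [SeminormedAddCommGroup E] (P Q : NormedSpace ℝ E)
    (h : ∀ (r : ℝ) (x : E), (letI := P; r • x) = (letI := Q; r • x)) : P = Q := by
  have h1 : P.toModule = Q.toModule := Module.ext' _ _ h
  cases P
  cases Q
  congr

theorem inst_eq : (inferInstance : NormedSpace ℝ EE) = NormedSpace.complexToReal := by
  apply NormedSpace_ext'
  intro r f
  apply ContinuousMap.ext
  intro x
  change r • (f x) = (r : ℂ) • (f x)
  exact (Complex.coe_smul r (f x)).symm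

theorem hasDerivAt_transport {E : Type} [NormedAddCommGroup E] {P Q : NormedSpace ℝ E}
    (h : P = Q) {F : ℝ → E} {F' : E} (hF : letI := P; HasDerivAt F F' 0) :
    letI := Q; HasDerivAt F F' 0 := by
  subst h; exact hF

theorem contDiff_transport {E : Type} [NormedAddCommGroup E] {P Q : NormedSpace ℝ E}
    (h : P = Q) {S : Type} [NormedAddCommGroup S] [NormedSpace ℝ S] {m : ℕ} {F : S → E}
    (hF : letI := P; ContDiff ℝ m F) :
    letI := Q; ContDiff ℝ m F := by
  subst h; exact hF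

theorem contDiff_rho (v : VV) (n m : ℕ) (X : Fin n → LG) : ContDiff ℝ m
    (fun t : Fin n → ℝ => rho (List.ofFn fun i => expG (t i • X i)).prod (iota v)) := by
  have h1 : SmoothG m (fun t : Fin n → ℝ => (List.ofFn fun i => expG (t i • X i)).prod) :=
    SmoothG.list_prod (S := Fin n → ℝ) (fun i t => t i) (fun i => contDiff_apply ℝ ℝ i) X
  exact h1.rho_iota v

/-- The sup norm on the torus is a `G`-continuous norm on the Laurent polynomials. -/
theorem isGContinuous_sup : IsGContinuous dpi kapG (fun v => ‖iota v‖) := by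
  refine ⟨EE, inferInstance, inferInstance, iota.toLinearMap, rho, inferInstance, fun v => rfl,
    denseRange_iota, ?_, ?_⟩
  · exact ⟨fun x => by rw [map_one]; rfl, fun g h x => by rw [map_mul]; rfl, continuous_rho⟩
  · refine ⟨?_, ?_, fun k hk v => rho_kap ⟨k, hk⟩ v⟩
    · intro v n m X
      have h := contDiff_transport inst_eq (contDiff_rho v n m X)
      exact h
    · intro X v
      exact hasDerivAt_transport inst_eq (hasDerivAt_rho X v)

end Pool.Agent.Lib.MP_6a3a89_al
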