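import Pool.Agent.Lib.MP_6a3a89_al.SupNorm

set_option autoImplicit false

/-!
# The test functions
-/

namespace Pool.Agent.Lib.MP_6a3a89_al

open Matrix ComplexConjugate Polynomial

/-- The operator `1 + a (d1² + d2²)`. -/
noncomputable def Dop (a : ℝ) : Module.End ℂ VV :=
  wt fun p => ((1 + a * ((p.1 : ℝ) ^ 2 + (p.2 : ℝ) ^ 2) : ℝ) : ℂ)

theorem Dop_eq (a : ℝ) (v : VV) : Dop a v = v + (a : ℂ) • (d1 (d1 v) + d2 (d2 v)) := by
  induction v using VV_induction with
  | h0 => simp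
  | hadd u w hu hw => simp only [map_add, hu, hw]; module
  | hb p r =>
    rw [map_smul, Dop, wt_bV, Derivation.map_smul, Derivation.map_smul, Derivation.map_smul,
      Derivation.map_smul, d1_bV, d2_bV, Derivation.map_smul, Derivation.map_smul, d1_bV, d2_bV]
    push_cast
    module

/-- `cos θ`. -/
noncomputable def cc : VV := (1 / 2 : ℂ) • (bV (1, 0) + bV (-1, 0))
/-- `i sin θ`. -/
noncomputable def ss : VV := (1 / 2 : ℂ) • (bV (1, 0) - bV (-1, 0))
/-- `cos φ`. -/
noncomputable def dd : VV := (1 / 2 : ℂ) • (bV (0, 1) + bV (0, -1))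
/-- `i sin φ`. -/
noncomputable def tt : VV := (1 / 2 : ℂ) • (bV (0, 1) - bV (0, -1))

theorem d1_cc : d1 cc = ss := by
  rw [cc, ss, Derivation.map_smul, map_add, d1_bV, d1_bV]; push_cast; module
theorem d1_ss : d1 ss = cc := by
  rw [cc, ss, Derivation.map_smul, map_sub, d1_bV, d1_bV]; push_cast; module
theorem d1_dd : d1 dd = 0 := by
  rw [dd, Derivation.map_smul, map_add, d1_bV, d1_bV]; push_cast; module
theorem d2_dd : d2 dd = tt := by
  rw [dd, tt, Derivation.map_smul, map_add, d2_bV, d2_bV]; push_cast; module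
theorem d2_tt : d2 tt = dd := by
  rw [dd, tt, Derivation.map_smul, map_sub, d2_bV, d2_bV]; push_cast; module
theorem d2_cc : d2 cc = 0 := by
  rw [cc, Derivation.map_smul, map_add, d2_bV, d2_bV]; push_cast; module

theorem ss_sq : ss * ss = cc * cc - 1 := by
  have h : (bV (1, 0) : VV) * bV (-1, 0) = 1 := by rw [mul_comm]; exact z1_inv
  rw [ss, cc, smul_mul_smul_comm, smul_mul_smul_comm, eq_sub_iff_add_eq]
  have e : (1 : VV) = (1 / 2 * (1 / 2) : ℂ) • (4 * (bV (1, 0) * bV (-1, 0))) := by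
    rw [h, mul_one, show (4 : VV) = (4 : ℂ) • (1 : VV) by
      rw [Algebra.smul_def, map_ofNat, mul_one], smul_smul]
    norm_num
  rw [e, ← smul_add]
  congr 1
  ring

theorem tt_sq : tt * tt = dd * dd - 1 := by
  have h : (bV (0, 1) : VV) * bV (0, -1) = 1 := by rw [mul_comm]; exact z2_inv
  rw [tt, dd, smul_mul_smul_comm, smul_mul_smul_comm, eq_sub_iff_add_eq]
  have e : (1 : VV) = (1 / 2 * (1 / 2) : ℂ) • (4 * (bV (0, 1) * bV (0, -1))) := by
    rw [h, mul_one, show (4 : VV) = (4 : ℂ) • (1 : VV) by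
      rw [Algebra.smul_def, map_ofNat, mul_one], smul_smul]
    norm_num
  rw [e, ← smul_add]
  congr 1
  ring

/-- `(2 + cos θ + cos φ) / 4`. -/
noncomputable def qq : VV := (1 / 4 : ℂ) • ((2 : ℂ) • (1 : VV) + cc + dd)

theorem d1_qq : d1 qq = (1 / 4 : ℂ) • ss := by
  rw [qq, Derivation.map_smul, map_add, map_add, Derivation.map_smul, d1_one, d1_cc, d1_dd]
  module
theorem d2_qq : d2 qq = (1 / 4 : ℂ) • tt := by
  rw [qq, Derivation.map_smul, map_add, map_add, Derivation.map_smul, d2_one, d2_cc, d2_dd]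
  module

/-- The first derivative of `p(q)`. -/
theorem d1_aeval (P : ℂ[X]) : d1 (aeval qq P) = (1 / 4 : ℂ) • (aeval qq (derivative P) * ss) := by
  rw [Derivation.map_aeval, d1_qq, smul_eq_mul, mul_smul_comm]

theorem d2_aeval (P : ℂ[X]) : d2 (aeval qq P) = (1 / 4 : ℂ) • (aeval qq (derivative P) * tt) := by
  rw [Derivation.map_aeval, d2_qq, smul_eq_mul, mul_smul_comm]

/-- The test function attached to a polynomial. -/
noncomputable def fP (P : ℂ[X]) : VV := (cc - dd) * aeval qq P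

theorem d1_d1_fP (P : ℂ[X]) : d1 (d1 (fP P)) = cc * aeval qq P +
    (1 / 2 : ℂ) • (ss * ss * aeval qq (derivative P)) +
    (cc - dd) * ((1 / 16 : ℂ) • (ss * ss * aeval qq (derivative (derivative P))) +
      (1 / 4 : ℂ) • (cc * aeval qq (derivative P))) := by
  have h1 : d1 (fP P) = ss * aeval qq P + (1 / 4 : ℂ) • ((cc - dd) * ss *
      aeval qq (derivative P)) := by
    rw [fP, Derivation.leibniz, d1_aeval, map_sub, d1_cc, d1_dd, sub_zero, smul_eq_mul,
      smul_eq_mul, mul_smul_comm]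
    rw [add_comm, mul_comm (aeval qq P)]
    congr 2
    ring
  rw [h1, map_add, Derivation.map_smul, Derivation.leibniz, Derivation.leibniz,
    Derivation.leibniz, d1_aeval, d1_aeval, map_sub, d1_cc, d1_dd, d1_ss]
  simp only [smul_eq_mul, Algebra.smul_def]
  have e16 : (algebraMap ℂ VV) (1 / 16) = (algebraMap ℂ VV) (1 / 4) * (algebraMap ℂ VV) (1 / 4) := by
    rw [← map_mul]; norm_num
  have e2 : (algebraMap ℂ VV) (1 / 2) = (algebraMap ℂ VV) (1 / 4) + (algebraMap ℂ VV) (1 / 4) := by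
    rw [← map_add]; norm_num
  rw [e16, e2]
  ring

theorem d2_d2_fP (P : ℂ[X]) : d2 (d2 (fP P)) = -(dd * aeval qq P) -
    (1 / 2 : ℂ) • (tt * tt * aeval qq (derivative P)) +
    (cc - dd) * ((1 / 16 : ℂ) • (tt * tt * aeval qq (derivative (derivative P))) +
      (1 / 4 : ℂ) • (dd * aeval qq (derivative P))) := by
  have h1 : d2 (fP P) = -(tt * aeval qq P) + (1 / 4 : ℂ) • ((cc - dd) * tt *
      aeval qq (derivative P)) := by
    rw [fP, Derivation.leibniz, d2_aeval, map_sub, d2_cc, d2_dd, zero_sub, smul_eq_mul,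
      smul_eq_mul, mul_smul_comm]
    rw [add_comm, mul_comm (aeval qq P), neg_mul]
    congr 2
    ring
  rw [h1, map_add, Derivation.map_smul, map_neg, Derivation.leibniz, Derivation.leibniz,
    Derivation.leibniz, d2_aeval, d2_aeval, map_sub, d2_cc, d2_dd, d2_tt]
  simp only [smul_eq_mul, Algebra.smul_def]
  have e16 : (algebraMap ℂ VV) (1 / 16) = (algebraMap ℂ VV) (1 / 4) * (algebraMap ℂ VV) (1 / 4) := by
    rw [← map_mul]; norm_num
  have e2 : (algebraMap ℂ VV) (1 / 2) = (algebraMap ℂ VV) (1 / 4) + (algebraMap ℂ VV) (1 / 4) := by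
    rw [← map_add]; norm_num
  rw [e16, e2]
  ring

end Pool.Agent.Lib.MP_6a3a89_al
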